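import Pool.Agent.L0h1.SJ.SCH2

/-!
# Project SJ: one number
-/

set_option autoImplicit false
set_option linter.unusedVariables false

open scoped Classical

namespace Pool.Agent.L0h1.SJ

open Finset Filter
open Pool.Agent.L0h86.JR (Cr S_LAWR FamR nR sqf amR)
open Pool.Agent.Results.MP_59f3ad_nt.QuadraticFieldsNaturalDensity (QBar Gal SqrtField ShaZero Cond
  Good one)

/-- the field `ℚ(√-n)` -/
noncomputable def SqN (n : ℕ) : IntermediateField ℚ QBar :=
  IntermediateField.adjoin ℚ {x | x ^ 2 = -((n : ℕ) : QBar)}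

theorem SqN_eq (n : ℕ) : SqN n = SqrtField {-(n : ℤ)} := by
  unfold SqN SqrtField
  congr 1
  ext x
  simp only [Set.mem_ofPred_eq, mem_singleton]
  constructor
  · intro h
    exact ⟨-(n : ℤ), rfl, by rw [h]; push_cast; rfl⟩
  · rintro ⟨a, rfl, hx⟩
    rw [hx]
    push_cast
    rfl

theorem GA_one {n e : ℕ} (hn : n ≠ 0) (he : e ∈ GA {n}) : e = 1 ∨ e = sqf n := by
  obtain ⟨hs, T, hT, f, hf⟩ := he
  rcases Finset.subset_singleton_iff.1 hT with rfl | rfl
  · left
    rw [Finset.prod_empty] at hf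
    exact Nat.eq_one_of_mul_eq_one_right hf.symm
  · right
    rw [Finset.prod_singleton] at hf
    exact (sqf_unique hn hs hf).symm

theorem good_one {n : ℕ} (hn : n ≠ 0) (h : Cr (-((sqf n : ℕ) : ℤ))) : GoodA {n} := by
  intro e he
  rcases GA_one hn he with rfl | rfl
  · exact Pool.Agent.N848.Q.crit_unit (Or.inr rfl)
  · exact h

theorem even_one {n : ℕ} (hn : n ≠ 0) (h : Cr (-((sqf n : ℕ) : ℤ))) {r : ℤ} (hr : Even r)
    (hr0 : r ≠ 0) {L : IntermediateField ℚ QBar} (hL : L ≤ SqN n) : ShaZero L r := by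
  refine one {-(n : ℤ)} ?_ r hr0 ?_ L (by rw [← SqN_eq]; exact hL)
  · rw [mem_singleton]
    omega
  · intro T hT e f hef he
    refine ⟨fun _ => ?_, fun ho => absurd hr (Int.not_even_iff_odd.2 ho)⟩
    rcases Finset.subset_singleton_iff.1 hT with rfl | rfl
    · rw [Finset.prod_empty] at hef
      have h1 : IsUnit e := isUnit_of_dvd_one ⟨f ^ 2, hef⟩
      rcases Int.isUnit_iff.1 h1 with rfl | rfl
      · exact Pool.Agent.N848.Q.crit_unit (Or.inl rfl)
      · exact Pool.Agent.N848.Q.crit_unit (Or.inr rfl)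
    · rw [Finset.prod_singleton] at hef
      have hneg : e < 0 := by
        by_contra hcon
        push Not at hcon
        have h1 : 0 ≤ e * f ^ 2 := mul_nonneg hcon (sq_nonneg f)
        omega
      have h1 : n = e.natAbs * f.natAbs ^ 2 := by
        have h2 := congrArg Int.natAbs hef
        rw [Int.natAbs_neg, Int.natAbs_natCast, Int.natAbs_mul, Int.natAbs_pow] at h2
        exact h2
      have h2 : sqf n = e.natAbs := sqf_unique hn (Int.squarefree_natAbs.2 he) h1
      have h3 : e = -((sqf n : ℕ) : ℤ) := by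
        rw [h2]
        omega
      rw [h3]
      exact h

/-- **The fields of one number.** -/
theorem sim {n : ℕ} (hn : n ≠ 0) (h : Cr (-((sqf n : ℕ) : ℤ))) :
    (∀ r : ℤ, Odd r → ∀ L : IntermediateField ℚ QBar, L ≤ SqF {n} → ShaZero L r) ∧
    (∀ r : ℤ, Even r → r ≠ 0 → ∀ L : IntermediateField ℚ QBar, L ≤ SqN n → ShaZero L r) ∧
    (C8 (sqf n) → ∀ r : ℤ, r ≠ 0 → ∀ L : IntermediateField ℚ QBar, L ≤ SqI {n} →
      ShaZero L r) := by
  have h0 : (0 : ℕ) ∉ ({n} : Finset ℕ) := by
    rw [mem_singleton]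
    exact hn.symm
  refine ⟨fun r hr L hL => ?_, fun r hr hr0 L hL => even_one hn h hr hr0 hL,
    fun h8 r hr L hL => ?_⟩
  · refine sch h0 (good_one hn h) hr ?_
    rw [Finset.coe_singleton]
    exact hL
  · refine schI h0 (good_one hn h) (fun e he => ?_) hr (L := L) ?_
    · rcases GA_one hn he with h1 | h1
      · exact Or.inl h1
      · exact Or.inr (h1 ▸ h8)
    · rw [Finset.coe_singleton]
      exact hL

end Pool.Agent.L0h1.SJ
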