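import Pool.Agent.L0h1.SJ.BRG0
import Pool.Agent.L0h86.JR.Stm

/-!
# Project SJ: the bridge to project JR
-/

set_option autoImplicit false
set_option linter.unusedVariables false
set_option maxHeartbeats 1000000

open scoped Classical

namespace Pool.Agent.L0h1.SJ

open Finset
open Pool.Agent.L0h86.JR (HL HT DD amR S_LAT)

section
variable {t n : ℕ} {U : Fin t → Type} [∀ l, Fintype (U l)] {J : Type} [Fintype J] [LinearOrder J]
  {w u : ∀ l, U l ⊕ J → ZMod 2} {N : ∀ l, U l ⊕ J → U l ⊕ J → ZMod 2}
  {x : Fin t → Fin n → ZMod 2} {JR : Fin n → Finset J}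

/-- a subfamily satisfies the hypotheses -/
theorem hl_of {Q : ℕ} (h : HL w u N) (h' : HT u N x JR Q) {t' : ℕ} (φ : Fin t' → Fin t)
    (hφ : Function.Injective φ) (l₀ : Fin t) :
    Hl (U := fun i => U (φ i)) (fun i => w (φ i)) (fun i v => u (φ i) (Sum.inl v))
      (fun k => u l₀ (Sum.inr k)) (fun i => N (φ i))
      (fun k k' => N l₀ (Sum.inr k) (Sum.inr k')) (fun i r => x (φ i) r) JR where
  w1 i k := h.w1 _ k
  su i := by
    have h1 := h.u1 (φ i)
    rw [Fintype.sum_sum_type] at h1
    rw [← h1]
    congr 1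
    exact Finset.sum_congr rfl fun k _ => h.uJ _ _ k
  rc i a b hab := by
    have e : ∀ a : U (φ i) ⊕ J, Sum.elim (fun v => u (φ i) (Sum.inl v))
        (fun k => u l₀ (Sum.inr k)) a = u (φ i) a := by
      rintro (v | k)
      · rfl
      · exact h.uJ _ _ k
    rw [e, e]
    exact h.rel (φ i) a b hab
  w0 i v hv := h.w0 (φ i) v hv
  com i k k' hk := h.NJ _ _ k k' hk
  lab i b e hb := by
    obtain ⟨k, hk⟩ := h.nd (φ i) b e hb
    refine ⟨k, ?_⟩
    rw [h.uJ l₀ (φ i) k]
    exact hk
  jr r k hk := by
    refine ⟨(h'.typ r k hk l₀ l₀).1, fun i i' => ?_⟩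
    have h1 := (h'.typ r k hk (φ i) (φ i')).2
    have e : ∀ i : Fin t', de (U := fun i => U (φ i)) (fun i => N (φ i)) i k = DD N (φ i) k :=
      fun i => rfl
    rw [e, e]
    have h2 : ∀ a b c d : ZMod 2, a + b = c + d → a + c = b + d := by decide
    exact h2 _ _ _ _ h1
  sep i i' hi := h'.sep _ _ fun hc => hi (hφ hc)

end

/-- **The bridge.** -/
theorem t_BRG (hLA : S_LAJ) : S_LAT := by
  intro t n ε hε
  have hδ : 0 < ε / 2 ^ t := by positivity
  choose C hC using fun t' : ℕ => hLA t' n (ε / 2 ^ t) hδ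
  refine ⟨∑ j ∈ range (t + 1), C j, ∑ j ∈ range (t + 1), C j, ?_⟩
  intro U _ J _ _ w u N x JR h h' β
  have key := pattern (Ω := ps J → ZMod 2) (fun l σ => Gv (pt (N l) (sx σ))) eta (ε / 2 ^ t)
    hδ.le ((2 : ℝ) ^ (ps J).card) (by positivity)
    (by
      rw [Fintype.card_fun, ZMod.card, Fintype.card_coe]
      push_cast
      rfl) ?_ β
  · have e : (2 : ℝ) ^ t * (ε / 2 ^ t) = ε := by
      field_simp
    rw [e] at key
    exact key
  · intro s
    rcases s.eq_empty_or_nonempty with rfl | ⟨l₀, hl₀⟩
    · have e1 : (univ.filter fun ω : ps J → ZMod 2 => ∀ l ∈ (∅ : Finset (Fin t)),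
          Gv (pt (N l) (sx ω))) = univ := by
        refine Finset.filter_true_of_mem fun ω _ l hl => ?_
        exact absurd hl (Finset.notMem_empty l)
      rw [e1, Finset.card_univ, Fintype.card_fun, ZMod.card, Fintype.card_coe, Finset.card_empty,
        pow_zero]
      push_cast
      rw [div_self (by positivity), sub_self, abs_zero]
      exact hδ.le
    · have hcard : s.card ∈ range (t + 1) := by
        rw [mem_range]
        have := Finset.card_le_univ s
        rw [Fintype.card_fin] at this
        omega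
      set φ : Fin s.card → Fin t := fun i => (s.equivFin.symm i : Fin t) with hφ
      have hφi : Function.Injective φ := fun i j hij =>
        s.equivFin.symm.injective (Subtype.ext hij)
      have hsz : C s.card * sz (fun i => U (φ i)) ≤
          (∑ j ∈ range (t + 1), C j) * ∑ l, Fintype.card (U l) + ∑ j ∈ range (t + 1), C j := by
        have h1 : C s.card ≤ ∑ j ∈ range (t + 1), C j :=
          Finset.single_le_sum (f := C) (fun _ _ => Nat.zero_le _) hcard
        have h2 : ∑ i, Fintype.card (U (φ i)) ≤ ∑ l, Fintype.card (U l) := by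
          have h3 : ∑ i, Fintype.card (U (φ i)) =
              ∑ l ∈ univ.image φ, Fintype.card (U l) := by
            rw [Finset.sum_image fun i _ j _ hij => hφi hij]
          rw [h3]
          exact Finset.sum_le_sum_of_subset (Finset.subset_univ _)
        have h4 : sz (fun i => U (φ i)) ≤ ∑ l, Fintype.card (U l) + 1 :=
          Nat.add_le_add_right h2 1
        calc C s.card * sz (fun i => U (φ i))
            ≤ (∑ j ∈ range (t + 1), C j) * (∑ l, Fintype.card (U l) + 1) :=
              Nat.mul_le_mul h1 h4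
          _ = _ := by ring
      have h1 := hC s.card (fun i => U (φ i)) J (fun i => w (φ i))
        (fun i v => u (φ i) (Sum.inl v)) (fun k => u l₀ (Sum.inr k)) (fun i => N (φ i))
        (fun k k' => N l₀ (Sum.inr k) (Sum.inr k')) (fun i r => x (φ i) r) JR
        (hl_of h h' φ hφi l₀) (hsz.trans (h'.three l₀)) (fun r => hsz.trans (h'.card r))
      have e2 : (univ.filter fun ω : ps J → ZMod 2 => ∀ l ∈ s, Gv (pt (N l) (sx ω))) =
          univ.filter fun ω : ps J → ZMod 2 => ∀ i : Fin s.card, Gv (pt (N (φ i)) (sx ω)) := by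
        ext ω
        rw [mem_filter, mem_filter]
        refine and_congr_right fun _ => ⟨fun hω i => hω _ (s.equivFin.symm i).2, fun hω l hl => ?_⟩
        have h2 := hω (s.equivFin ⟨l, hl⟩)
        have h3 : φ (s.equivFin ⟨l, hl⟩) = l := by
          simp only [hφ, Equiv.symm_apply_apply]
        rw [h3] at h2
        exact h2
      rw [e2]
      exact h1

end Pool.Agent.L0h1.SJ
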