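import Pool.Agent.L0h1.SJ.StmA

/-!
# Project SJ: from (all systems good) to all patterns, abstract part
-/

set_option autoImplicit false
set_option linter.unusedVariables false

open scoped Classical

namespace Pool.Agent.L0h1.SJ

open Finset

/-- inclusion-exclusion: if the events `G l` are asymptotically independent in the sense that all
intersections have about the right size, then all patterns have about the right size -/
theorem pattern {t : ℕ} {Ω : Type} [Fintype Ω] (G : Fin t → Ω → Prop) (η δ : ℝ)
    (hδ : 0 ≤ δ) (B : ℝ) (hB : 0 < B) (hBc : (Fintype.card Ω : ℝ) = B)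
    (h : ∀ s : Finset (Fin t),
      |((univ.filter fun ω => ∀ l ∈ s, G l ω).card : ℝ) / B - η ^ s.card| ≤ δ)
    (β : Fin t → Bool) :
    |((univ.filter fun ω => ∀ l, (G l ω ↔ β l = true)).card : ℝ) / B -
      ∏ l, (if β l = true then η else 1 - η)| ≤ 2 ^ t * δ := by
  -- the coefficients
  set c : Fin t → ℝ := fun l => if β l = true then 0 else 1 with hc
  set d : Fin t → ℝ := fun l => if β l = true then 1 else -1 with hd
  set g : Fin t → Ω → ℝ := fun l ω => if G l ω then 1 else 0 with hg
  have e1 : ∀ ω, (if (∀ l, (G l ω ↔ β l = true)) then (1 : ℝ) else 0) =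
      ∏ l, (d l * g l ω + c l) := by
    intro ω
    by_cases hω : ∀ l, (G l ω ↔ β l = true)
    · rw [if_pos hω]
      symm
      apply Finset.prod_eq_one
      intro l _
      have := hω l
      simp only [hd, hg, hc]
      by_cases hb : β l = true
      · rw [if_pos hb, if_pos (this.2 hb), if_pos hb]; norm_num
      · rw [if_neg hb, if_neg (fun h => hb (this.1 h)), if_neg hb]; norm_num
    · rw [if_neg hω]
      push Not at hω
      obtain ⟨l, hl⟩ := hω
      symm
      apply Finset.prod_eq_zero (mem_univ l)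
      simp only [hd, hg, hc]
      by_cases hb : β l = true
      · have : ¬ G l ω := by
          rcases hl with h | h
          · exact fun _ => h.2 hb
          · exact h.1
        rw [if_pos hb, if_neg this, if_pos hb]; norm_num
      · have : G l ω := by
          rcases hl with h | h
          · exact h.1
          · exact absurd h.2 hb
        rw [if_neg hb, if_pos this, if_neg hb]; norm_num
  have e2 : ∀ a : Fin t → ℝ, ∏ l, (d l * a l + c l) =
      ∑ s ∈ (univ : Finset (Fin t)).powerset, (∏ l ∈ s, d l) * (∏ l ∈ univ \ s, c l) *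
        ∏ l ∈ s, a l := by
    intro a
    rw [Finset.prod_add]
    refine Finset.sum_congr rfl fun s _ => ?_
    rw [Finset.prod_mul_distrib]
    ring
  have e3 : ∀ s : Finset (Fin t), ∑ ω, ∏ l ∈ s, g l ω =
      ((univ.filter fun ω => ∀ l ∈ s, G l ω).card : ℝ) := by
    intro s
    rw [Finset.card_filter]
    push_cast
    refine Finset.sum_congr rfl fun ω _ => ?_
    by_cases hω : ∀ l ∈ s, G l ω
    · rw [if_pos hω]
      exact Finset.prod_eq_one fun l hl => by simp only [hg]; rw [if_pos (hω l hl)]
    · rw [if_neg hω]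
      push Not at hω
      obtain ⟨l, hl, hl'⟩ := hω
      exact Finset.prod_eq_zero hl (by simp only [hg]; rw [if_neg hl'])
  have e4 : ((univ.filter fun ω => ∀ l, (G l ω ↔ β l = true)).card : ℝ) =
      ∑ s ∈ (univ : Finset (Fin t)).powerset, (∏ l ∈ s, d l) * (∏ l ∈ univ \ s, c l) *
        ((univ.filter fun ω => ∀ l ∈ s, G l ω).card : ℝ) := by
    rw [Finset.card_filter]
    push_cast
    rw [Finset.sum_congr rfl fun ω _ => (e1 ω).trans (e2 fun l => g l ω), Finset.sum_comm]
    refine Finset.sum_congr rfl fun s _ => ?_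
    rw [← Finset.mul_sum, e3]
  have e5 : ∏ l, (if β l = true then η else 1 - η) =
      ∑ s ∈ (univ : Finset (Fin t)).powerset, (∏ l ∈ s, d l) * (∏ l ∈ univ \ s, c l) *
        η ^ s.card := by
    have h1 : ∏ l, (if β l = true then η else 1 - η) = ∏ l, (d l * η + c l) := by
      refine Finset.prod_congr rfl fun l _ => ?_
      simp only [hd, hc]
      split_ifs <;> ring
    rw [h1, e2 fun _ => η]
    refine Finset.sum_congr rfl fun s _ => ?_
    rw [Finset.prod_const]
  have e6 : ∀ s : Finset (Fin t), |(∏ l ∈ s, d l) * (∏ l ∈ univ \ s, c l)| ≤ 1 := by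
    intro s
    rw [abs_mul, Finset.abs_prod, Finset.abs_prod]
    refine mul_le_one₀ (Finset.prod_le_one (fun _ _ => abs_nonneg _) fun l _ => ?_)
      (Finset.prod_nonneg fun _ _ => abs_nonneg _)
      (Finset.prod_le_one (fun _ _ => abs_nonneg _) fun l _ => ?_)
    · simp only [hd]; split_ifs <;> norm_num
    · simp only [hc]; split_ifs <;> norm_num
  rw [e4, e5, Finset.sum_div, ← Finset.sum_sub_distrib]
  refine (Finset.abs_sum_le_sum_abs _ _).trans ?_
  have e7 : ∀ s ∈ (univ : Finset (Fin t)).powerset,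
      |(∏ l ∈ s, d l) * (∏ l ∈ univ \ s, c l) *
        ((univ.filter fun ω => ∀ l ∈ s, G l ω).card : ℝ) / B -
        (∏ l ∈ s, d l) * (∏ l ∈ univ \ s, c l) * η ^ s.card| ≤ δ := by
    intro s _
    have : (∏ l ∈ s, d l) * (∏ l ∈ univ \ s, c l) *
        ((univ.filter fun ω => ∀ l ∈ s, G l ω).card : ℝ) / B -
        (∏ l ∈ s, d l) * (∏ l ∈ univ \ s, c l) * η ^ s.card =
        ((∏ l ∈ s, d l) * (∏ l ∈ univ \ s, c l)) *
        (((univ.filter fun ω => ∀ l ∈ s, G l ω).card : ℝ) / B - η ^ s.card) := by ring
    rw [this, abs_mul]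
    calc _ ≤ 1 * δ := mul_le_mul (e6 s) (h s) (abs_nonneg _) zero_le_one
      _ = δ := one_mul _
  refine (Finset.sum_le_sum e7).trans ?_
  rw [Finset.sum_const, Finset.card_powerset, Finset.card_univ, Fintype.card_fin, nsmul_eq_mul]
  push_cast
  exact le_rfl

/-- the pigeonhole principle for the types -/
theorem pigeon {t : ℕ} {J : Type} (S : Finset J) (f : J → Fin t → ZMod 2) (Q : ℕ)
    (h : 2 ^ t * Q ≤ S.card) : ∃ y : Fin t → ZMod 2, Q ≤ (S.filter fun k => f k = y).card := by
  by_contra hcon
  push Not at hcon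
  have h1 : S.card = ∑ y : Fin t → ZMod 2, (S.filter fun k => f k = y).card :=
    Finset.card_eq_sum_card_fiberwise fun a _ => by simp
  have h2 : ∑ y : Fin t → ZMod 2, (S.filter fun k => f k = y).card <
      ∑ y : Fin t → ZMod 2, Q := Finset.sum_lt_sum_of_nonempty ⟨0, mem_univ _⟩ fun y _ => hcon y
  rw [← h1, Finset.sum_const, Finset.card_univ, Fintype.card_fun, ZMod.card, Fintype.card_fin,
    smul_eq_mul] at h2
  omega

end Pool.Agent.L0h1.SJ
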