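import Mathlib

/-!
# Schneider's conjecture for `p = 2`: definitions

The definitions of the Tate–Shafarevich groups are those of the starting file
`Pool/Agent/Results/MP_59f3ad_nt/QuadraticFieldsNaturalDensity.lean`.
-/

set_option autoImplicit false

namespace Pool.Agent.L0h1.SJ.D

/-! ### Galois groups -/

/-- An algebraic closure of `ℚ`. -/
abbrev QBar : Type := AlgebraicClosure ℚ

/-- The absolute Galois group of `ℚ`. The one of a subfield `L` of `ℚ̄` is `L.fixingSubgroup`. -/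
abbrev Gal : Type := QBar ≃ₐ[ℚ] QBar

/-! ### The Tate twists and the Tate–Shafarevich groups -/

/-- The `2`-adic cyclotomic character. -/
noncomputable def cyc : Gal →* ℤ_[2]ˣ :=
  (cyclotomicCharacter QBar 2).comp (MulSemiringAction.toRingAut Gal QBar)

/-- The `2`-adic integer by which `σ` acts on `ℤ_2(r)`, that is, the `r`-th power of the value of
the cyclotomic character. -/
noncomputable def tate (r : ℤ) (σ : Gal) : ℤ_[2] := (((cyc σ) ^ r : ℤ_[2]ˣ) : ℤ_[2])

/-- The decomposition group of the place of `ℚ̄` given by the embedding `ι`. Its intersection with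
the absolute Galois group of `L` is the decomposition group of a place of `L` above `p`, and all
places are obtained from the embeddings `ι`. -/
def Dec {p : ℕ} [Fact p.Prime] (ι : QBar →ₐ[ℚ] PadicAlgCl p) : Set Gal :=
  {σ | ∃ τ : PadicAlgCl p ≃ₐ[ℚ_[p]] PadicAlgCl p, ∀ x, τ (ι x) = ι (σ x)}

/-- Its inertia group: the automorphisms which are trivial on the residue field. -/
def Inr {p : ℕ} [Fact p.Prime] (ι : QBar →ₐ[ℚ] PadicAlgCl p) : Set Gal :=
  {σ | ∃ τ : PadicAlgCl p ≃ₐ[ℚ_[p]] PadicAlgCl p, (∀ x, τ (ι x) = ι (σ x)) ∧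
    ∀ z : PadicAlgCl p, ‖z‖ ≤ 1 → ‖τ z - z‖ < 1}

section

variable {L : IntermediateField ℚ QBar}

/-- The continuous cocycles of the absolute Galois group of `L` with values in `ℤ_2(r)`. -/
structure IsCocycle (r : ℤ) (c : ↥L.fixingSubgroup → ℤ_[2]) : Prop where
  cont : Continuous c
  mul : ∀ σ τ, c (σ * τ) = c σ + tate r (σ : Gal) * c τ

/-- The restriction of `c` to the subset `S` is a coboundary with values in `ℤ_2(r)`. -/
def TrivialOn (r : ℤ) (S : Set Gal) (c : ↥L.fixingSubgroup → ℤ_[2]) : Prop :=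
  ∃ z : ℤ_[2], ∀ σ : ↥L.fixingSubgroup, (σ : Gal) ∈ S → c σ = (tate r (σ : Gal) - 1) * z

/-- The cocycles of the elements of the groups `Ш¹(O_{L,S}, ℤ_2(r))`: they vanish on the inertia
groups of the places prime to `2` (on which the cyclotomic character is trivial), because their
classes are unramified outside `S` and locally trivial at the places of `S`, and their restrictions
to the decomposition groups of the places above `2` are coboundaries. -/
structure InSha (r : ℤ) (c : ↥L.fixingSubgroup → ℤ_[2]) : Prop where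
  odd : ∀ (p : ℕ) [Fact p.Prime] (ι : QBar →ₐ[ℚ] PadicAlgCl p), p ≠ 2 →
    ∀ σ : ↥L.fixingSubgroup, (σ : Gal) ∈ Inr ι → c σ = 0
  two : ∀ ι : QBar →ₐ[ℚ] PadicAlgCl 2, TrivialOn r (Dec ι) c

end

/-- `Ш¹(O_{L,S}, ℤ_2(r)) = 0` for all `S`. -/
def ShaZero (L : IntermediateField ℚ QBar) (r : ℤ) : Prop :=
  ∀ c : ↥L.fixingSubgroup → ℤ_[2], IsCocycle r c → InSha r c → TrivialOn r Set.univ c

/-! ### The fields -/

/-- The field generated by the square roots of the elements of `B`. -/
noncomputable def SqF (B : Set ℕ) : IntermediateField ℚ QBar :=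
  IntermediateField.adjoin ℚ {x | ∃ b ∈ B, x ^ 2 = ((b : ℕ) : QBar)}

/-- The field generated by `√-1` and the square roots of the elements of `B`. -/
noncomputable def SqI (B : Set ℕ) : IntermediateField ℚ QBar :=
  IntermediateField.adjoin ℚ {x | x ^ 2 = -1 ∨ ∃ b ∈ B, x ^ 2 = ((b : ℕ) : QBar)}

/-- The field `ℚ(√-n)`. -/
noncomputable def SqN (n : ℕ) : IntermediateField ℚ QBar :=
  IntermediateField.adjoin ℚ {x | x ^ 2 = -((n : ℕ) : QBar)}

/-- `Ш¹(O_{L,S}, ℤ_2(r)) = 0` for all `S`, all odd `r` and all subfields `L` of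
`ℚ(√b : b ∈ B)`. -/
def OddTwists (B : Set ℕ) : Prop :=
  ∀ r : ℤ, Odd r → ∀ L : IntermediateField ℚ QBar, L ≤ SqF B → ShaZero L r

/-- `Ш¹(O_{L,S}, ℤ_2(r)) = 0` for all `S`, all even `r ≠ 0` and all subfields `L` of
`ℚ(√-n)`. -/
def EvenTwists (n : ℕ) : Prop :=
  ∀ r : ℤ, Even r → r ≠ 0 → ∀ L : IntermediateField ℚ QBar, L ≤ SqN n → ShaZero L r

/-- `Ш¹(O_{L,S}, ℤ_2(r)) = 0` for all `S`, all `r ≠ 0` and all subfields `L` of
`ℚ(√-1, √b : b ∈ B)`. -/
def AllTwists (B : Set ℕ) : Prop :=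
  ∀ r : ℤ, r ≠ 0 → ∀ L : IntermediateField ℚ QBar, L ≤ SqI B → ShaZero L r

/-! ### The condition -/

/-- The condition `(C_e)`: the only factorization `e = a b` with `a = 1` modulo `8`, with `a > 0` if
`e > 0`, such that `a` is a square modulo the odd prime divisors of `b` and `b` is a square modulo
the odd prime divisors of `a`, is the one with `a = 1`. For `e > 0` squarefree, `(C_{-e})` says that
`e` is not `7` modulo `8` and that the class group of `ℚ(√-e)` has no element of order four (Rédei;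
not used). -/
def Cond (e : ℤ) : Prop := ∀ a b : ℤ, e = a * b → a % 8 = 1 → (0 < e → 0 < a) →
  (∀ q : ℕ, q.Prime → q ≠ 2 → (((q : ℤ) ∣ b → IsSquare (a : ZMod q)) ∧
    ((q : ℤ) ∣ a → IsSquare (b : ZMod q)))) → a = 1

/-- The squarefree part of `n > 0`: the product of the primes with odd exponent in `n`. -/
def sqf (n : ℕ) : ℕ := ∏ p ∈ n.primeFactors.filter (fun p => n.factorization p % 2 = 1), p

/-- The squarefree parts of the products of the elements of the subsets of `A`. -/
def GA (A : Finset ℕ) : Set ℕ := {e | Squarefree e ∧ ∃ T ⊆ A, ∃ f : ℕ, ∏ a ∈ T, a = e * f ^ 2}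

/-- The good sets: `(C_{-e})` for all `e` in `GA A`. -/
def GoodSet (A : Finset ℕ) : Prop := ∀ e ∈ GA A, Cond (-(e : ℤ))

/-! ### The families -/

/-- The squarefree numbers `m` in the class of `r` modulo `q` such that no `sqf (d_l m)` is `7`
modulo `8`. -/
def Fam {t : ℕ} (d : Fin t → ℕ) (q r m : ℕ) : Prop :=
  Squarefree m ∧ m % q = r % q ∧ ∀ l, sqf (d l * m) % 8 ≠ 7

/-- The squarefree numbers `m` in the class of `r` modulo `q` such that no `sqf (e m)`, `e` in
`GA A`, is `7` modulo `8`. -/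
def FamA (A : Finset ℕ) (q r m : ℕ) : Prop :=
  Squarefree m ∧ m % q = r % q ∧ ∀ e ∈ GA A, sqf (e * m) % 8 ≠ 7

/-- The number of the `m ≤ X`, `m > 0`, with the property `P`. -/
noncomputable def count (P : ℕ → Prop) (X : ℕ) : ℝ :=
  (({m | 1 ≤ m ∧ m ≤ X ∧ P m} : Set ℕ).ncard : ℝ)

/-- `η = ∏_{i ≥ 1} (1 - 2^{-i})`. -/
noncomputable def eta : ℝ := ∏' i : ℕ, (1 - (1 / 2 : ℝ) ^ (i + 1))

/-- The classes `2, 3, 5, 6` modulo `8`. -/
def C8 (e : ℕ) : Prop := e % 8 = 2 ∨ e % 8 = 3 ∨ e % 8 = 5 ∨ e % 8 = 6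

end Pool.Agent.L0h1.SJ.D
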