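import Pool.Agent.L0h1.SJ.SCH2

/-!
# Project SJ: degrees, and the tower over any good set
-/

set_option autoImplicit false
set_option linter.unusedVariables false

open scoped Classical

namespace Pool.Agent.L0h1.SJ

open Finset Filter
open Pool.Agent.L0h86.JR (Cr S_LAWR FamR nR sqf amR)
open Pool.Agent.Results.MP_59f3ad_nt.QuadraticFieldsNaturalDensity (QBar Gal SqrtField ShaZero Cond
  Good one)

/-! ### The tower over a good set -/

/-- the invariant -/
structure InvT (k : ℕ) (A₀ A : Finset ℕ) : Prop where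
  sub : A₀ ⊆ A
  zero : 0 ∉ A
  good : GoodA A
  new : ∀ b ∈ A, b ∉ A₀ → Squarefree b ∧ 1 < b ∧ b ≡ 1 [MOD 8 * k] ∧ ∀ a ∈ A, a ≠ b → a.Coprime b

theorem cr_ne {e : ℕ} (h : Cr (-(e : ℤ))) : e % 8 ≠ 7 := by
  intro h7
  have h1 := h (-(e : ℤ)) 1 (by ring) (by omega) (fun h => h) (fun q hq hq2 => ⟨fun hd => ?_,
    fun _ => ⟨1, by push_cast; ring⟩⟩)
  · omega
  · have h2 : (q : ℤ) ∣ ((1 : ℕ) : ℤ) := by exact_mod_cast hd
    have h3 : q ∣ 1 := Int.natCast_dvd_natCast.1 h2
    exact absurd (Nat.dvd_one.1 h3) hq.ne_one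

theorem invT_step (hL : S_LAWR) {k : ℕ} (hk : 0 < k) {A₀ A : Finset ℕ} (h : InvT k A₀ A) :
    ∃ m, m ∉ A ∧ InvT k A₀ (insert m A) := by
  set P : ℕ := ∏ a ∈ A, a with hP
  have hP0 : 0 < P := Nat.pos_of_ne_zero (prod_ne h.zero (Finset.Subset.refl _))
  have hkP : 0 < k * P := Nat.mul_pos hk hP0
  have hq : 0 < 8 * (k * P) := by omega
  have hmods : ∀ m, m % (8 * (k * P)) = 1 % (8 * (k * P)) → m ≡ 1 [MOD 8 * k] ∧ m % 8 = 1 ∧
      m ≡ 1 [MOD P] := by
    intro m hmod
    have h1 : m ≡ 1 [MOD 8 * (k * P)] := hmod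
    refine ⟨h1.of_dvd ⟨P, by ring⟩, ?_, h1.of_dvd ⟨8 * k, by ring⟩⟩
    have h2 : m ≡ 1 [MOD 8] := h1.of_dvd ⟨k * P, by ring⟩
    exact h2
  have hfam : ∀ m, Squarefree m → m % (8 * (k * P)) = 1 % (8 * (k * P)) →
      FamA A (8 * (k * P)) 1 m := by
    intro m hm hmod
    refine ⟨hm, hmod, fun e he => ?_⟩
    have h2 : e % 8 ≠ 7 := cr_ne (h.good e he)
    obtain ⟨hes, T, hT, f, hf⟩ := he
    have h1 : e ∣ P := (Dvd.intro _ hf.symm).trans (Finset.prod_dvd_prod_of_subset _ _ _ hT)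
    obtain ⟨-, h3, h4⟩ := hmods m hmod
    have h5 : e.Coprime m := by
      have h6 : m ≡ 1 [MOD e] := h4.of_dvd h1
      have h7 := h6.gcd_eq
      rw [Nat.gcd_one_left] at h7
      exact (Nat.coprime_comm.1 h7)
    have h8 : Squarefree (e * m) := (Nat.squarefree_mul h5).2 ⟨hes, hm⟩
    rw [sqf_unique h8.ne_zero h8 (f := 1) (by ring), Nat.mul_mod, h3]
    omega
  have hinf : {m | FamA A (8 * (k * P)) 1 m}.Infinite := by
    rw [Set.infinite_iff_exists_gt]
    intro K
    obtain ⟨p, hp, hpp, hp1⟩ := Nat.forall_exists_prime_gt_and_modEq (q := 8 * (k * P)) (a := 1) K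
      (by omega) (Nat.coprime_one_left _)
    exact ⟨p, hfam p hpp.prime.squarefree hp1, hp⟩
  obtain ⟨m, hmK, hmF, hmG⟩ := exists_large hL h.zero h.good hq 1 hinf (8 * (k * P))
  obtain ⟨hm8, h3, h4⟩ := hmods m hmF.2.1
  have hcop : ∀ a ∈ A, a.Coprime m := by
    intro a ha
    have h6 : m ≡ 1 [MOD a] := h4.of_dvd (Finset.dvd_prod_of_mem _ ha)
    have h7 := h6.gcd_eq
    rw [Nat.gcd_one_left] at h7
    exact (Nat.coprime_comm.1 h7)
  have hmA : m ∉ A := by
    intro hm
    have h8 := Nat.le_of_dvd hP0 (Finset.dvd_prod_of_mem _ hm)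
    nlinarith
  refine ⟨m, hmA, h.sub.trans (Finset.subset_insert _ _), ?_, hmG, ?_⟩
  · rw [mem_insert]
    rintro (h0 | h0)
    · omega
    · exact h.zero h0
  · intro b hb hb0
    rcases mem_insert.1 hb with h1 | h1
    · rw [h1]
      refine ⟨hmF.1, by omega, hm8, fun a ha hab => ?_⟩
      rcases mem_insert.1 ha with h2 | h2
      · exact absurd h2 hab
      · exact hcop a h2
    · obtain ⟨c1, c2, c3, c4⟩ := h.new b h1 hb0
      refine ⟨c1, c2, c3, fun a ha hab => ?_⟩
      rcases mem_insert.1 ha with h2 | h2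
      · rw [h2]
        exact (hcop b h1).symm
      · exact c4 a h2 hab

/-- **The tower over a good set.** -/
theorem towerT (hL : S_LAWR) {k : ℕ} (hk : 0 < k) {A₀ : Finset ℕ} (h0 : 0 ∉ A₀) (hA : GoodA A₀) :
    ∃ B : Set ℕ, (A₀ : Set ℕ) ⊆ B ∧ B.Infinite ∧
      (∀ b ∈ B, b ∉ A₀ → Squarefree b ∧ 1 < b ∧ b ≡ 1 [MOD 8 * k] ∧
        ∀ a ∈ B, a ≠ b → a.Coprime b) ∧ ∀ A : Finset ℕ, (A : Set ℕ) ⊆ B → 0 ∉ A ∧ GoodA A := by
  choose! g hg using fun (A : Finset ℕ) (h : InvT k A₀ A) => invT_step hL hk h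
  obtain ⟨S, hS0, hS1⟩ : ∃ S : ℕ → Finset ℕ, S 0 = A₀ ∧
      ∀ n, S (n + 1) = insert (g (S n)) (S n) :=
    ⟨fun n => Nat.rec A₀ (fun _ A => insert (g A) A) n, rfl, fun n => rfl⟩
  have hinv : ∀ n, InvT k A₀ (S n) := by
    intro n
    induction n with
    | zero =>
      rw [hS0]
      exact ⟨Finset.Subset.refl _, h0, hA, fun b hb hb0 => absurd hb hb0⟩
    | succ n ih => rw [hS1]; exact (hg _ ih).2
  have hmono : Monotone S := monotone_nat_of_le_succ fun n => by
    rw [hS1]
    exact Finset.subset_insert _ _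
  have hcard : ∀ n, n ≤ (S n).card := by
    intro n
    induction n with
    | zero => exact Nat.zero_le _
    | succ n ih =>
      rw [hS1, Finset.card_insert_of_notMem (hg _ (hinv n)).1]
      omega
  have hfin : ∀ A : Finset ℕ, (A : Set ℕ) ⊆ ⋃ n : ℕ, (↑(S n) : Set ℕ) → ∃ n, A ⊆ S n := by
    intro A hA
    induction A using Finset.induction_on with
    | empty => exact ⟨0, Finset.empty_subset _⟩
    | insert a A ha ih =>
      rw [Finset.coe_insert, Set.insert_subset_iff] at hA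
      obtain ⟨n, hn⟩ := ih hA.2
      obtain ⟨j, hj⟩ := Set.mem_iUnion.1 hA.1
      refine ⟨max n j, Finset.insert_subset (hmono (le_max_right _ _) hj)
        (hn.trans (hmono (le_max_left _ _)))⟩
  refine ⟨⋃ n : ℕ, (↑(S n) : Set ℕ), ?_, ?_, ?_, ?_⟩
  · intro a ha
    exact Set.mem_iUnion.2 ⟨0, by rw [hS0]; exact ha⟩
  · intro hf
    obtain ⟨n, hn⟩ := hfin hf.toFinset (by rw [hf.coe_toFinset])
    have h1 : S ((S n).card + 1) ⊆ hf.toFinset := by
      intro a ha
      rw [hf.mem_toFinset]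
      exact Set.mem_iUnion.2 ⟨_, ha⟩
    have h2 := Finset.card_le_card (h1.trans hn)
    have h3 := hcard ((S n).card + 1)
    omega
  · intro b hb hb0
    obtain ⟨n, hn⟩ := Set.mem_iUnion.1 hb
    obtain ⟨c1, c2, c3, c4⟩ := (hinv n).new b hn hb0
    refine ⟨c1, c2, c3, fun a ha hab => ?_⟩
    obtain ⟨j, hj⟩ := Set.mem_iUnion.1 ha
    exact ((hinv (max n j)).new b (hmono (le_max_left _ _) hn) hb0).2.2.2 a
      (hmono (le_max_right _ _) hj) hab
  · intro A hA
    obtain ⟨n, hn⟩ := hfin A hA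
    exact ⟨fun h => (hinv n).zero (hn h), good_sub hn (hinv n).good⟩

/-! ### Degrees -/

theorem sqf_prod_eq {e e' k : ℕ} (he : Squarefree e) (he' : Squarefree e') (h : e * e' = k ^ 2) :
    e = e' := by
  have h1 : e * (e * e') ≠ 0 := mul_ne_zero he.ne_zero (mul_ne_zero he.ne_zero he'.ne_zero)
  have h2 : sqf (e * (e * e')) = e := sqf_unique (f := k) h1 he (by rw [h])
  have h3 : sqf (e * (e * e')) = e' := sqf_unique (f := e) h1 he' (by ring)
  rw [← h2, h3]

/-- the square roots of squarefree numbers are linearly independent -/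
theorem lin_ind (s : ℕ → QBar) (hs : ∀ e, s e ^ 2 = ((e : ℕ) : QBar)) :
    LinearIndependent ℚ (fun e : {e : ℕ // Squarefree e} => s e) := by
  have hs0 : ∀ e : {e : ℕ // Squarefree e}, s e ≠ 0 := by
    intro e h
    have h1 := hs e
    rw [h, zero_pow two_ne_zero] at h1
    have h2 : (((e : ℕ)) : QBar) = ((0 : ℕ) : QBar) := by rw [← h1]; simp
    exact e.2.ne_zero (by exact_mod_cast h2)
  have hsg : ∀ (e : ℕ) (σ : Gal), σ (s e) = s e ∨ σ (s e) = -s e := by
    intro e σ
    refine sq_eq_sq_iff_eq_or_eq_neg.1 ?_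
    rw [← map_pow, hs e, map_natCast]
  -- two different ones are separated by the Galois group
  have hsep : ∀ e e' : {e : ℕ // Squarefree e}, e ≠ e' → ∃ σ : Gal, σ (s e * s e') = -(s e * s e') := by
    intro e e' hne
    by_contra hcon
    push Not at hcon
    have h1 : ∀ σ : Gal, σ (s e * s e') = s e * s e' := by
      intro σ
      rw [map_mul]
      rcases hsg e σ with h | h <;> rcases hsg e' σ with h' | h'
      · rw [h, h']
      · exact absurd (by rw [map_mul, h, h']; ring) (hcon σ)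
      · exact absurd (by rw [map_mul, h, h']; ring) (hcon σ)
      · rw [h, h']; ring
    have h2 : s e * s e' ∈ (⊥ : IntermediateField ℚ QBar) :=
      (InfiniteGalois.mem_bot_iff_fixed _).2 h1
    obtain ⟨y, hy⟩ := IntermediateField.mem_bot.1 h2
    have h3 : y ^ 2 = ((e : ℕ) : ℚ) * ((e' : ℕ) : ℚ) := by
      have h4 : algebraMap ℚ QBar (y ^ 2) = algebraMap ℚ QBar (((e : ℕ) : ℚ) * ((e' : ℕ) : ℚ)) := by
        rw [map_pow, hy, mul_pow, hs, hs, map_mul, map_natCast, map_natCast]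
      exact (algebraMap ℚ QBar).injective h4
    have h5 : IsSquare (((e : ℕ) * (e' : ℕ) : ℕ) : ℚ) := ⟨y, by push_cast; rw [← h3]; ring⟩
    rw [Rat.isSquare_natCast_iff] at h5
    obtain ⟨k, hk⟩ := h5
    exact hne (Subtype.ext (sqf_prod_eq e.2 e'.2 (k := k) (by rw [hk]; ring)))
  rw [linearIndependent_iff']
  intro S
  induction S using Finset.induction_on with
  | empty => intro g _ i hi; exact absurd hi (Finset.notMem_empty _)
  | insert j S hj ih =>
    intro g hg
    rw [Finset.sum_insert hj] at hg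
    have key : ∀ i ∈ S, g i = 0 := by
      intro i hi
      have hij : i ≠ j := fun h => hj (h ▸ hi)
      obtain ⟨σ, hσ⟩ := hsep i j hij
      -- the signs
      have hsgn : ∀ e : {e : ℕ // Squarefree e}, ∃ c : ℚ, σ (s e) = c • s e := by
        intro e
        rcases hsg e σ with h | h
        · exact ⟨1, by rw [h, one_smul]⟩
        · exact ⟨-1, by rw [h, neg_smul, one_smul]⟩
      choose c hc using hsgn
      have h1 : c i * c j = -1 := by
        have h2 : (c i * c j) • (s i * s j) = (-1 : ℚ) • (s i * s j) := by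
          rw [neg_smul, one_smul, ← hσ, map_mul, hc, hc, smul_mul_smul_comm]
        have h3 : (c i * c j - (-1 : ℚ)) • (s i * s j) = 0 := by rw [sub_smul, h2, sub_self]
        rcases smul_eq_zero.1 h3 with h4 | h4
        · linarith
        · exact absurd h4 (mul_ne_zero (hs0 i) (hs0 j))
      have h5 : ∑ k ∈ S, (g k * (c k - c j)) • s k = 0 := by
        have h6 := congrArg (fun z => σ z - c j • z) hg
        simp only [map_add, map_sum, map_zero, smul_zero, sub_zero] at h6
        have e1 : ∀ k : {e : ℕ // Squarefree e}, σ (g k • s k) = (g k * c k) • s k := by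
          intro k
          rw [Algebra.smul_def, map_mul, AlgEquiv.commutes, ← Algebra.smul_def, hc, smul_smul]
        rw [e1, Finset.sum_congr rfl fun k _ => e1 k] at h6
        rw [← h6, smul_add, Finset.smul_sum]
        rw [add_sub_add_comm, ← Finset.sum_sub_distrib, smul_smul, mul_comm (c j) (g j), sub_self,
          zero_add]
        refine Finset.sum_congr rfl fun k _ => ?_
        rw [smul_smul, ← sub_smul]
        congr 1
        ring
      have h7 := ih _ h5 i hi
      rcases mul_eq_zero.1 h7 with h8 | h8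
      · exact h8
      · exfalso
        have h9 : c i = c j := by linarith
        rw [h9] at h1
        nlinarith [mul_self_nonneg (c j)]
    intro i hi
    rcases mem_insert.1 hi with rfl | h
    · rw [Finset.sum_eq_zero fun k hk => by rw [key k hk, zero_smul], add_zero] at hg
      rcases smul_eq_zero.1 hg with h1 | h1
      · exact h1
      · exact absurd h1 (hs0 _)
    · exact key i h

theorem GA_mul {A : Finset ℕ} (h0 : 0 ∉ A) {e e' : ℕ} (he : e ∈ GA A) (he' : e' ∈ GA A) :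
    ∃ e'' ∈ GA A, ∃ g : ℕ, e * e' = e'' * g ^ 2 := by
  obtain ⟨h1, T, hT, f, hf⟩ := he
  obtain ⟨h1', T', hT', f', hf'⟩ := he'
  have hff : f ≠ 0 := by
    rintro rfl
    rw [zero_pow two_ne_zero, mul_zero] at hf
    exact prod_ne h0 hT hf
  have hff' : f' ≠ 0 := by
    rintro rfl
    rw [zero_pow two_ne_zero, mul_zero] at hf'
    exact prod_ne h0 hT' hf'
  have hU : symmDiff T T' ⊆ A := by
    intro a ha
    rcases Finset.mem_symmDiff.1 ha with h | h
    · exact hT h.1
    · exact hT' h.1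
  obtain ⟨h2, k, hk⟩ := sqf_spec (prod_ne h0 hU)
  have h3 : (∏ a ∈ T, a) * ∏ a ∈ T', a = (∏ a ∈ symmDiff T T', a) * (∏ a ∈ T ∩ T', a) ^ 2 := by
    have e1 : ∏ a ∈ T, a = (∏ a ∈ T \ T', a) * ∏ a ∈ T ∩ T', a := by
      rw [mul_comm]
      exact (Finset.prod_inter_mul_prod_sdiff T T' fun a => a).symm
    have e2 : ∏ a ∈ T', a = (∏ a ∈ T' \ T, a) * ∏ a ∈ T ∩ T', a := by
      rw [mul_comm, Finset.inter_comm]
      exact (Finset.prod_inter_mul_prod_sdiff T' T fun a => a).symm
    have e3 : ∏ a ∈ symmDiff T T', a = (∏ a ∈ T \ T', a) * ∏ a ∈ T' \ T, a := by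
      rw [show symmDiff T T' = (T \ T') ∪ (T' \ T) from rfl, Finset.prod_union]
      rw [Finset.disjoint_left]
      intro a ha hb
      exact (Finset.mem_sdiff.1 ha).2 (Finset.mem_sdiff.1 hb).1
    rw [e3]
    conv_lhs => rw [e1, e2]
    ring
  have hee : e * e' ≠ 0 := mul_ne_zero h1.ne_zero h1'.ne_zero
  obtain ⟨h4, g, hg⟩ := sqf_spec hee
  refine ⟨sqf (e * e'), ?_, g, hg⟩
  have h5 : sqf (e * e') = sqf (∏ a ∈ symmDiff T T', a) := by
    have h6 : e * e' * (f * f') ^ 2 ≠ 0 := mul_ne_zero hee (pow_ne_zero 2 (mul_ne_zero hff hff'))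
    have h7 : sqf (e * e' * (f * f') ^ 2) = sqf (∏ a ∈ symmDiff T T', a) := by
      refine sqf_unique (f := k * ∏ a ∈ T ∩ T', a) h6 h2 ?_
      calc e * e' * (f * f') ^ 2 = (e * f ^ 2) * (e' * f' ^ 2) := by ring
        _ = (∏ a ∈ T, a) * ∏ a ∈ T', a := by rw [hf, hf']
        _ = (∏ a ∈ symmDiff T T', a) * (∏ a ∈ T ∩ T', a) ^ 2 := h3
        _ = (sqf (∏ a ∈ symmDiff T T', a) * k ^ 2) * (∏ a ∈ T ∩ T', a) ^ 2 := by rw [← hk]
        _ = _ := by ring
    have h8 : sqf (e * e' * (f * f') ^ 2) = sqf (e * e') := by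
      refine sqf_unique (f := g * (f * f')) h6 h4 ?_
      conv_lhs => rw [hg]
      ring
    rw [← h8, h7]
  rw [h5]
  exact mem_GA h0 hU

/-- **The degree.** -/
theorem degree {A : Finset ℕ} (h0 : 0 ∉ A) :
    Module.finrank ℚ (SqF (A : Set ℕ)) = (GA A).ncard := by
  have hex : ∀ e : ℕ, ∃ x : QBar, x ^ 2 = ((e : ℕ) : QBar) := fun e =>
    IsAlgClosed.exists_pow_nat_eq _ (by norm_num)
  choose s hs using hex
  have hli := lin_ind s hs
  have hfin := GA_fin h0
  have : Fintype (GA A) := hfin.fintype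
  -- the elements with square `e f²` are in the span
  have hspan : ∀ x : QBar, (∃ e ∈ GA A, ∃ f : ℕ, x ^ 2 = ((e * f ^ 2 : ℕ) : QBar)) →
      x ∈ Submodule.span ℚ (Set.range fun e : GA A => s e) := by
    rintro x ⟨e, he, f, hx⟩
    have h1 : x ^ 2 = ((f : ℚ) • s e) ^ 2 := by
      rw [hx, Algebra.smul_def, mul_pow, hs]
      push_cast
      ring
    have h2 : s e ∈ Submodule.span ℚ (Set.range fun e : GA A => s e) :=
      Submodule.subset_span ⟨⟨e, he⟩, rfl⟩
    rcases sq_eq_sq_iff_eq_or_eq_neg.1 h1 with h3 | h3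
    · rw [h3]
      exact Submodule.smul_mem _ _ h2
    · rw [h3]
      exact Submodule.neg_mem _ (Submodule.smul_mem _ _ h2)
  have hsub : Subalgebra.toSubmodule (SqF (A : Set ℕ)).toSubalgebra =
      Submodule.span ℚ (Set.range fun e : GA A => s e) := by
    apply le_antisymm
    · unfold SqF
      rw [IntermediateField.adjoin_toSubalgebra_of_isAlgebraic fun x _ =>
        Algebra.IsAlgebraic.isAlgebraic x, Algebra.adjoin_eq_span, Submodule.span_le]
      intro x hx
      refine hspan x ?_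
      induction hx using Submonoid.closure_induction with
      | mem x hx =>
        obtain ⟨b, hb, hx⟩ := hx
        have hb' : ({b} : Finset ℕ) ⊆ A := Finset.singleton_subset_iff.2 hb
        obtain ⟨h1, f, hf⟩ := sqf_spec (prod_ne h0 hb')
        refine ⟨_, mem_GA h0 hb', f, ?_⟩
        rw [← hf, Finset.prod_singleton]
        exact hx
      | one =>
        have h1 := mem_GA h0 (Finset.empty_subset A)
        rw [Finset.prod_empty, sqf_self squarefree_one] at h1
        exact ⟨1, h1, 1, by simp⟩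
      | mul x y _ _ ihx ihy =>
        obtain ⟨e, he, f, hx⟩ := ihx
        obtain ⟨e', he', f', hy⟩ := ihy
        obtain ⟨e'', he'', g, hg⟩ := GA_mul h0 he he'
        refine ⟨e'', he'', g * (f * f'), ?_⟩
        rw [mul_pow, hx, hy, ← Nat.cast_mul]
        congr 1
        calc e * f ^ 2 * (e' * f' ^ 2) = (e * e') * (f * f') ^ 2 := by ring
          _ = (e'' * g ^ 2) * (f * f') ^ 2 := by rw [hg]
          _ = _ := by ring
    · rw [Submodule.span_le]
      rintro x ⟨⟨e, he⟩, rfl⟩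
      show s e ∈ SqF (A : Set ℕ)
      obtain ⟨h1, T, hT, f, hf⟩ := he
      have hff : f ≠ 0 := by
        rintro rfl
        rw [zero_pow two_ne_zero, mul_zero] at hf
        exact prod_ne h0 hT hf
      have hff' : ((f : ℕ) : QBar) ≠ 0 := by exact_mod_cast hff
      have h2 : ∏ a ∈ T, s a ∈ SqF (A : Set ℕ) := by
        refine prod_mem fun a ha => ?_
        exact IntermediateField.subset_adjoin ℚ _ ⟨a, hT ha, hs a⟩
      have h3 : (s e) ^ 2 = ((∏ a ∈ T, s a) / (f : QBar)) ^ 2 := by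
        rw [hs, div_pow, ← Finset.prod_pow, Finset.prod_congr rfl fun a _ => hs a,
          ← Nat.cast_prod, hf]
        push_cast
        field_simp
      have h4 : (∏ a ∈ T, s a) / (f : QBar) ∈ SqF (A : Set ℕ) :=
        div_mem h2 (natCast_mem _ f)
      rcases sq_eq_sq_iff_eq_or_eq_neg.1 h3 with h5 | h5
      · rw [h5]; exact h4
      · rw [h5]; exact neg_mem h4
  have hli' : LinearIndependent ℚ (fun e : GA A => s e) := by
    have h1 := hli.comp (fun e : GA A => (⟨e, e.2.1⟩ : {e : ℕ // Squarefree e}))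
      (fun a b hab => Subtype.ext (Subtype.mk.inj hab))
    exact h1
  have h1 : Module.finrank ℚ (SqF (A : Set ℕ)) =
      Module.finrank ℚ (Subalgebra.toSubmodule (SqF (A : Set ℕ)).toSubalgebra) := rfl
  rw [h1, hsub, finrank_span_eq_card hli', ← Nat.card_eq_fintype_card]
  exact Nat.card_coe_set_eq _

/-- the field of an infinite set of squarefree numbers has infinite degree -/
theorem inf_degree {B : Set ℕ} (hB : {b ∈ B | Squarefree b}.Infinite) :
    ¬ FiniteDimensional ℚ (SqF B) := by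
  intro hfd
  have hex : ∀ e : ℕ, ∃ x : QBar, x ^ 2 = ((e : ℕ) : QBar) := fun e =>
    IsAlgClosed.exists_pow_nat_eq _ (by norm_num)
  choose s hs using hex
  have hli := lin_ind s hs
  obtain ⟨T, hT, hTc⟩ := hB.exists_subset_card_eq (Module.finrank ℚ (SqF B) + 1)
  have h1 : ∀ b : T, s b ∈ SqF B := fun b =>
    IntermediateField.subset_adjoin ℚ _ ⟨b, (hT b.2).1, hs b⟩
  have h2 : LinearIndependent ℚ (fun b : T => (⟨s b, h1 b⟩ : SqF B)) := by
    have h3 : LinearIndependent ℚ (fun b : T => s b) := by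
      have h4 := hli.comp (fun b : T => (⟨b, (hT b.2).2⟩ : {e : ℕ // Squarefree e}))
        (fun a b hab => Subtype.ext (Subtype.mk.inj hab))
      exact h4
    exact LinearIndependent.of_comp (SqF B).val.toLinearMap h3
  have h3 := h2.fintype_card_le_finrank
  rw [Fintype.card_coe, hTc] at h3
  omega

end Pool.Agent.L0h1.SJ
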