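import Pool.Agent.L0h1.SJ.StmA

/-!
# Project SJ, module MOA: the assembly of the moments (helper88; one step rewritten by helper1)
-/

set_option autoImplicit false

open scoped Classical

namespace Pool.Agent.L0h1.SJ.MOA

open Finset Pool.Agent.L0h1.SJ

lemma card_nat {α : Type} (inst : Fintype α) (P : α → Prop) (dec : DecidablePred P) :
    (@Finset.filter α P dec (@Finset.univ α inst)).card = Nat.card {a // P a} := by
  rw [Nat.card_eq_fintype_card, Fintype.card_subtype]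

/-- the product of the numbers of tuples -/
lemma prod_cnt {t : ℕ} {K : Fin t → ℕ} {U : Fin t → Type} [∀ l, Fintype (U l)] {J : Type}
    [Fintype J] [LinearOrder J] (M : ∀ l, U l ⊕ J → U l ⊕ J → ZMod 2) :
    ∏ l, cnt (K l) (M l) = (univ.filter fun ξ : Tu K U J =>
      ∀ l, (∀ i, IsSol (M l) (ξ l i)) ∧ Ind (ξ l)).card := by
  refine Eq.trans ?_ (card_nat _ _ _).symm
  have h1 : ∀ l, cnt (K l) (M l) =
      Nat.card {x : Fin (K l) → U l ⊕ J → ZMod 2 // (∀ i, IsSol (M l) (x i)) ∧ Ind x} := by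
    intro l
    unfold cnt
    exact card_nat _ _ _
  rw [Finset.prod_congr rfl fun l _ => h1 l, ← Nat.card_pi]
  apply Nat.card_congr
  exact (Equiv.subtypePiEquivPi (p := fun l (x : Fin (K l) → U l ⊕ J → ZMod 2) =>
    (∀ i, IsSol (M l) (x i)) ∧ Ind x)).symm

lemma surj_ind {t : ℕ} {K : Fin t → ℕ} {U : Fin t → Type} [∀ l, Fintype (U l)] {J : Type}
    [Fintype J] (ξ : Tu K U J) (h : Function.Surjective (Xf ξ)) : IndT ξ := by
  intro l c hc e
  obtain ⟨i₀, hi₀⟩ := hc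
  have hval : ∀ a : Ix K → ZMod 2, ∃ p, ∀ i, ξ l i p = a ⟨l, i⟩ := by
    intro a
    obtain ⟨k, hk⟩ := h a
    exact ⟨Sum.inr k, fun i => congrFun hk ⟨l, i⟩⟩
  obtain ⟨p0, hp0⟩ := hval 0
  obtain ⟨p1, hp1⟩ := hval (fun z => if z = ⟨l, i₀⟩ then 1 else 0)
  by_contra hcon
  push Not at hcon
  have h0 := hcon p0
  have h1 := hcon p1
  have e0 : ∑ i, c i * ξ l i p0 = 0 := by
    apply Finset.sum_eq_zero
    intro i _
    rw [hp0 i]
    simp
  have e1 : ∑ i, c i * ξ l i p1 = c i₀ := by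
    rw [Finset.sum_eq_single i₀]
    · rw [hp1 i₀, if_pos rfl, mul_one]
    · intro i _ hi
      rw [hp1 i, if_neg, mul_zero]
      intro h2
      apply hi
      have := (Sigma.mk.inj_iff.mp h2).2
      exact eq_of_heq this
    · intro h2
      exact absurd (mem_univ _) h2
  rw [e0] at h0
  rw [e1, ← h0] at h1
  exact hi₀ h1

lemma full_surj {J I : Type} [Fintype J] [Fintype I] (X : J → I → ZMod 2) (h : Full X)
    (hc : ¬ ∃ c ∈ DX X, c ≠ 0) : Function.Surjective X := by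
  intro a
  apply h a
  intro c hc1 p
  have h1 : c = 0 := by
    by_contra h2
    exact hc ⟨c, hc1, h2⟩
  rw [h1]
  simp

lemma prod_cnt_real {t : ℕ} {K : Fin t → ℕ} {U : Fin t → Type} [∀ l, Fintype (U l)] {J : Type}
    [Fintype J] [LinearOrder J] (N : ∀ l, U l ⊕ J → U l ⊕ J → ZMod 2) (σ : ps J → ZMod 2) :
    ∏ l, (cnt (K l) (pt (N l) (sx σ)) : ℝ) =
      ∑ ξ : Tu K U J, (if IndT ξ ∧ SolT N σ ξ then (1 : ℝ) else 0) := by
  have h2 := prod_cnt (K := K) (fun l => pt (N l) (sx σ))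
  have h3 : (univ.filter fun ξ : Tu K U J =>
      ∀ l, (∀ i, IsSol (pt (N l) (sx σ)) (ξ l i)) ∧ Ind (ξ l)) =
      univ.filter fun ξ : Tu K U J => IndT ξ ∧ SolT N σ ξ := by
    apply Finset.filter_congr
    intro ξ _
    constructor
    · intro h
      exact ⟨fun l => (h l).2, fun l i => (h l).1 i⟩
    · rintro ⟨h, h'⟩ l
      exact ⟨fun i => h' l i, h l⟩
  rw [Finset.sum_boole, ← h3, ← h2, Nat.cast_prod]

/-- the sums do not depend on the instances -/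
theorem sum_inst {T : Type} (i1 i2 : Fintype T) (P : T → Prop) (d1 d2 : DecidablePred P)
    (f : T → ℝ) :
    @Finset.sum T ℝ _ (@Finset.filter T P d1 (@Finset.univ T i1)) f =
      @Finset.sum T ℝ _ (@Finset.filter T P d2 (@Finset.univ T i2)) f := by
  have h1 : i1 = i2 := Subsingleton.elim _ _
  subst h1
  have h2 : d1 = d2 := Subsingleton.elim _ _
  subst h2
  rfl

theorem t_MOA : S_MOA := by
  intro hF hO hA hB hM t n K ε hε
  have h3 : 0 < ε / 3 := by positivity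
  obtain ⟨CA, hCA⟩ := hA t K (ε / 3) h3
  obtain ⟨CB, hCB⟩ := hB t n K (ε / 3) h3
  obtain ⟨CM, hCM⟩ := hM t n K (ε / 3) h3
  refine ⟨max CA (max CB CM), fun U _ J _ _ w uU uJ N NJ x JR hl hu hr => ?_⟩
  have mA : CA * sz U ≤ max CA (max CB CM) * sz U :=
    Nat.mul_le_mul_right _ (le_max_left _ _)
  have mB : CB * sz U ≤ max CA (max CB CM) * sz U :=
    Nat.mul_le_mul_right _ ((le_max_left _ _).trans (le_max_right _ _))
  have mM : CM * sz U ≤ max CA (max CB CM) * sz U :=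
    Nat.mul_le_mul_right _ ((le_max_right _ _).trans (le_max_right _ _))
  have hJ : (univ.filter fun k => uJ k = 1).card ≤ Fintype.card J := by
    rw [← Finset.card_univ]
    exact Finset.card_filter_le _ _
  have hA0 := hCA U J ((mA.trans hu).trans hJ)
  have hB0 := hCB U J w uU uJ N NJ x JR hl (mB.trans hu) (fun r => mB.trans (hr r))
  have hM0 := hCM U J w uU uJ N NJ x JR hl (mM.trans hu) (fun r => mM.trans (hr r))
  obtain ⟨S, hS⟩ : ∃ S : Tu K U J → ℝ, S = fun ξ => ∑ y ∈ RX (Xf ξ), sr (pr y (tg N ξ)) :=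
    ⟨_, rfl⟩
  obtain ⟨Q, hQ⟩ : ∃ Q : ℝ, Q = 2 ^ (Fintype.card J * Fintype.card (Ix K)) := ⟨_, rfl⟩
  have hQ0 : 0 < Q := by rw [hQ]; positivity
  obtain ⟨R, hR⟩ : ∃ R : ℝ, R = 2 ^ (ps J).card := ⟨_, rfl⟩
  have hR0 : 0 < R := by rw [hR]; positivity
  have hA' : ∑ ξ : Tu K U J, (if ¬ Full (Xf ξ) then ((RX (Xf ξ)).card : ℝ) else 0) ≤
      ε / 3 * Q := by
    rw [← Finset.sum_filter, hQ]
    refine le_trans (le_of_eq ?_) hA0
    exact sum_inst _ _ _ _ _ _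
  have hB' : ∑ ξ : Tu K U J, (if IndT ξ ∧ Full (Xf ξ) ∧ (∃ c ∈ DX (Xf ξ), c ≠ 0) ∧
      (∀ y ∈ RX (Xf ξ), pr y (tg N ξ) = 0) then ((RX (Xf ξ)).card : ℝ) else 0) ≤
      ε / 3 * Q := by
    rw [← Finset.sum_filter, hQ]
    exact hB0
  have hM' : |∑ ξ : Tu K U J, (if Function.Surjective (Xf ξ) ∧ Sml N ξ then S ξ else 0) -
      2 ^ (∑ l, K l) * Q| ≤ ε / 3 * Q := by
    rw [← Finset.sum_filter, hQ, hS]
    exact hM0
  clear hA0 hB0 hM0
  -- the sum over `σ`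
  have key : ∑ σ : ps J → ZMod 2, ∏ l, (cnt (K l) (pt (N l) (sx σ)) : ℝ) =
      R / Q * ∑ ξ : Tu K U J, (if IndT ξ ∧ Sml N ξ then S ξ else 0) := by
    have h1 : ∀ σ : ps J → ZMod 2, ∏ l, (cnt (K l) (pt (N l) (sx σ)) : ℝ) =
        ∑ ξ : Tu K U J, (if IndT ξ ∧ SolT N σ ξ then (1 : ℝ) else 0) := by
      intro σ
      exact prod_cnt_real N σ
    rw [Finset.sum_congr rfl fun σ _ => h1 σ, Finset.sum_comm, Finset.mul_sum]
    apply Finset.sum_congr rfl
    intro ξ _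
    have h5 := hF t K U J N ξ
    rw [← hQ, ← hR] at h5
    have h6 : ((univ.filter fun σ : ps J → ZMod 2 => SolT N σ ξ).card : ℝ) =
        R / Q * (if Sml N ξ then S ξ else 0) := by
      rw [div_mul_eq_mul_div, eq_div_iff hQ0.ne', h5, hS]
    by_cases hI : IndT ξ
    · have h7 : ∑ σ : ps J → ZMod 2, (if IndT ξ ∧ SolT N σ ξ then (1 : ℝ) else 0) =
          ((univ.filter fun σ : ps J → ZMod 2 => SolT N σ ξ).card : ℝ) := by
        rw [Finset.sum_boole]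
        congr 2
        apply Finset.filter_congr
        intro σ _
        exact ⟨fun h => h.2, fun h => ⟨hI, h⟩⟩
      rw [h7, h6]
      congr 1
      by_cases hs : Sml N ξ
      · rw [if_pos hs, if_pos ⟨hI, hs⟩]
      · rw [if_neg hs, if_neg fun h => hs h.2]
    · rw [if_neg fun h => hI h.1, mul_zero]
      apply Finset.sum_eq_zero
      intro σ _
      rw [if_neg fun h => hI h.1]
  -- the pointwise comparison
  have hpt : ∀ ξ : Tu K U J,
      0 ≤ (if IndT ξ ∧ Sml N ξ then S ξ else 0) -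
        (if Function.Surjective (Xf ξ) ∧ Sml N ξ then S ξ else 0) ∧
      (if IndT ξ ∧ Sml N ξ then S ξ else 0) -
        (if Function.Surjective (Xf ξ) ∧ Sml N ξ then S ξ else 0) ≤
      (if ¬ Full (Xf ξ) then ((RX (Xf ξ)).card : ℝ) else 0) +
        (if IndT ξ ∧ Full (Xf ξ) ∧ (∃ c ∈ DX (Xf ξ), c ≠ 0) ∧
          ∀ y ∈ RX (Xf ξ), pr y (tg N ξ) = 0 then ((RX (Xf ξ)).card : ℝ) else 0) := by
    intro ξ
    obtain ⟨o1, o2, o3⟩ := hO J (Ix K) (Xf ξ) (tg N ξ)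
    have hSξ : S ξ = ∑ y ∈ RX (Xf ξ), sr (pr y (tg N ξ)) := by rw [hS]
    rw [← hSξ] at o1 o2 o3
    have hcard : (0 : ℝ) ≤ ((RX (Xf ξ)).card : ℝ) := Nat.cast_nonneg _
    have hR1 : (0 : ℝ) ≤ (if ¬ Full (Xf ξ) then ((RX (Xf ξ)).card : ℝ) else 0) := by
      split_ifs <;> first | exact hcard | exact le_rfl
    have hR2 : (0 : ℝ) ≤ (if IndT ξ ∧ Full (Xf ξ) ∧ (∃ c ∈ DX (Xf ξ), c ≠ 0) ∧
          ∀ y ∈ RX (Xf ξ), pr y (tg N ξ) = 0 then ((RX (Xf ξ)).card : ℝ) else 0) := by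
      split_ifs <;> first | exact hcard | exact le_rfl
    by_cases hsur : Function.Surjective (Xf ξ)
    · have hI := surj_ind ξ hsur
      have e : (if IndT ξ ∧ Sml N ξ then S ξ else 0) =
          (if Function.Surjective (Xf ξ) ∧ Sml N ξ then S ξ else 0) := by
        by_cases hs : Sml N ξ
        · rw [if_pos ⟨hI, hs⟩, if_pos ⟨hsur, hs⟩]
        · rw [if_neg fun h => hs h.2, if_neg fun h => hs h.2]
      rw [e, sub_self]
      exact ⟨le_rfl, by linarith⟩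
    · rw [if_neg (fun h => hsur h.1 : ¬ (Function.Surjective (Xf ξ) ∧ Sml N ξ)), sub_zero]
      by_cases hIS : IndT ξ ∧ Sml N ξ
      · rw [if_pos hIS]
        refine ⟨o1, ?_⟩
        by_cases hf : Full (Xf ξ)
        · have hc : ∃ c ∈ DX (Xf ξ), c ≠ 0 := by
            by_contra hc
            exact hsur (full_surj _ hf hc)
          by_cases hy : ∀ y ∈ RX (Xf ξ), pr y (tg N ξ) = 0
          · rw [if_pos (⟨hIS.1, hf, hc, hy⟩ : IndT ξ ∧ Full (Xf ξ) ∧ (∃ c ∈ DX (Xf ξ), c ≠ 0) ∧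
              ∀ y ∈ RX (Xf ξ), pr y (tg N ξ) = 0)]
            linarith
          · push Not at hy
            rw [o3 hy]
            linarith
        · rw [if_pos hf]
          linarith
      · rw [if_neg hIS]
        exact ⟨le_rfl, by linarith⟩
  -- summation
  obtain ⟨T, hT⟩ : ∃ T : ℝ, T = ∑ ξ : Tu K U J, (if IndT ξ ∧ Sml N ξ then S ξ else 0) :=
    ⟨_, rfl⟩
  obtain ⟨M, hMd⟩ : ∃ M : ℝ, M = ∑ ξ : Tu K U J,
    (if Function.Surjective (Xf ξ) ∧ Sml N ξ then S ξ else 0) := ⟨_, rfl⟩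
  have hTM0 : 0 ≤ T - M := by
    rw [hT, hMd, ← Finset.sum_sub_distrib]
    exact Finset.sum_nonneg fun ξ _ => (hpt ξ).1
  have hTM1 : T - M ≤ ε / 3 * Q + ε / 3 * Q := by
    rw [hT, hMd, ← Finset.sum_sub_distrib]
    refine (Finset.sum_le_sum fun ξ _ => (hpt ξ).2).trans ?_
    rw [Finset.sum_add_distrib]
    exact add_le_add hA' hB'
  have hM2 : |M - 2 ^ (∑ l, K l) * Q| ≤ ε / 3 * Q := by
    rw [hMd]
    exact hM'
  rw [key, ← hT]
  have e1 : R / Q * T / 2 ^ (ps J).card = T / Q := by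
    rw [← hR]
    field_simp
  rw [e1]
  rw [abs_le] at hM2 ⊢
  have e2 : T / Q - 2 ^ (∑ l, K l) = (T - 2 ^ (∑ l, K l) * Q) / Q := by
    field_simp
  rw [e2]
  constructor
  · rw [le_div_iff₀ hQ0]
    nlinarith [hM2.1]
  · rw [div_le_iff₀ hQ0]
    nlinarith [hM2.2]

end Pool.Agent.L0h1.SJ.MOA
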