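import Pool.Agent.L0h1.SJ.BRG
import Pool.Agent.L0h37.SJ.MNC
import Pool.Agent.L0h37.SJ.CH
import Pool.Agent.L0h71.SJ.Four
import Pool.Agent.L0h71.SJ.Grd
import Pool.Agent.L0h71.SJ.Row
import Pool.Agent.L0h81.SJ.NSB
import Pool.Agent.L0h88.SJ.ASM
import Pool.Agent.L0h1.SJ.MOA
import Pool.Agent.L0h88.SJ.ORT
import Pool.Agent.L0h9.SJ.BON
import Pool.Agent.L0h9.SJ.EUL
import Pool.Agent.L0h9.SJ.PAR
import Pool.Agent.L0h48.SJ.NSA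
import Pool.Agent.L0h48.SJ.CNA
import Pool.Agent.L0h48.SJ.RBD

/-!
# SJ: the joint linear algebra lemma, assembled
-/

namespace Pool.Agent.L0h1.SJ

theorem a_NSA : S_NSA := Pool.Agent.L0h48.SJ.NSA.t_NSA Pool.Agent.L0h48.SJ.RBD.t_RBD
  Pool.Agent.L0h48.SJ.CNA.t_CNA

theorem a_NSB : S_NSB := Pool.Agent.L0h81.SJ.t_NSB Pool.Agent.L0h48.SJ.RBD.t_RBD
  Pool.Agent.L0h71.SJ.t_GRD

theorem a_MNC : S_MNC := Pool.Agent.L0h37.SJ.t_MNC Pool.Agent.L0h9.SJ.t_PAR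
  Pool.Agent.L0h71.SJ.t_ROW Pool.Agent.L0h37.SJ.t_CH0 Pool.Agent.L0h37.SJ.t_CH1

theorem a_MOM : S_MOM := Pool.Agent.L0h1.SJ.MOA.t_MOA Pool.Agent.L0h71.SJ.t_FOUR
  Pool.Agent.L0h88.SJ.t_ORT a_NSA a_NSB a_MNC

theorem a_LAJ : S_LAJ := Pool.Agent.L0h88.SJ.ASM.t_ASM Pool.Agent.L0h9.SJ.t_BON
  Pool.Agent.L0h9.SJ.t_EUL a_MOM

theorem a_LAT : Pool.Agent.L0h86.JR.S_LAT := t_BRG a_LAJ

end Pool.Agent.L0h1.SJ
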