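import Pool.Agent.L0h86.JR.Stm

/-!
# Project SJ: from the joint law to the extensions of good sets
-/

set_option autoImplicit false
set_option linter.unusedVariables false

open scoped Classical

namespace Pool.Agent.L0h1.SJ

open Finset Filter
open Pool.Agent.L0h86.JR (Cr S_LAWR FamR nR sqf amR)

/-- the squarefree numbers `e` such that a product of the elements of a subset of `A` is `e f²` -/
def GA (A : Finset ℕ) : Set ℕ := {e | Squarefree e ∧ ∃ T ⊆ A, ∃ f : ℕ, ∏ a ∈ T, a = e * f ^ 2}

/-- the good sets of positive integers -/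
def GoodA (A : Finset ℕ) : Prop := ∀ e ∈ GA A, Cr (-(e : ℤ))

/-- the squarefree part -/
theorem sqf_spec {n : ℕ} (hn : n ≠ 0) : Squarefree (sqf n) ∧ ∃ f : ℕ, n = sqf n * f ^ 2 := by
  obtain ⟨a, b, -, -, h1, h2⟩ := Nat.sq_mul_squarefree_of_pos (Nat.pos_of_ne_zero hn)
  have ha : a ≠ 0 := by
    rintro rfl
    rw [mul_zero] at h1
    exact hn h1.symm
  have hb : b ≠ 0 := by
    rintro rfl
    rw [zero_pow two_ne_zero, zero_mul] at h1
    exact hn h1.symm
  have key : sqf n = a := by
    have h3 : n.primeFactors.filter (fun p => n.factorization p % 2 = 1) = a.primeFactors := by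
      ext p
      rw [mem_filter, Nat.mem_primeFactors, Nat.mem_primeFactors]
      have h4 : n.factorization p = 2 * b.factorization p + a.factorization p := by
        rw [← h1, Nat.factorization_mul (pow_ne_zero 2 hb) ha, Nat.factorization_pow]
        simp
      have h5 : a.factorization p ≤ 1 := Squarefree.natFactorization_le_one p h2
      constructor
      · rintro ⟨⟨hp, -, -⟩, h6⟩
        refine ⟨hp, ?_, ha⟩
        have h7 : a.factorization p = 1 := by omega
        exact Nat.dvd_of_factorization_pos (by omega)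
      · rintro ⟨hp, hd, -⟩
        have h7 : 1 ≤ a.factorization p := (hp.dvd_iff_one_le_factorization ha).1 hd
        refine ⟨⟨hp, ?_, hn⟩, by omega⟩
        rw [← h1]
        exact Dvd.dvd.mul_left hd _
    unfold sqf
    rw [h3]
    exact Nat.prod_primeFactors_of_squarefree h2
  rw [key]
  exact ⟨h2, b, by rw [← h1]; ring⟩

/-- the squarefree part is unique -/
theorem sqf_unique {n e f : ℕ} (hn : n ≠ 0) (he : Squarefree e) (h : n = e * f ^ 2) : sqf n = e := by
  obtain ⟨h1, g, hg⟩ := sqf_spec hn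
  have hf : f ≠ 0 := by
    rintro rfl
    rw [zero_pow two_ne_zero, mul_zero] at h
    exact hn h
  have hg0 : g ≠ 0 := by
    rintro rfl
    rw [zero_pow two_ne_zero, mul_zero] at hg
    exact hn hg
  have he0 := he.ne_zero
  have h10 := h1.ne_zero
  refine Nat.eq_of_factorization_eq h10 he0 fun p => ?_
  have h2 : n.factorization p = e.factorization p + 2 * f.factorization p := by
    rw [h, Nat.factorization_mul he0 (pow_ne_zero 2 hf), Nat.factorization_pow]
    simp
  have h3 : n.factorization p = (sqf n).factorization p + 2 * g.factorization p := by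
    conv_lhs => rw [hg]
    rw [Nat.factorization_mul h10 (pow_ne_zero 2 hg0), Nat.factorization_pow]
    simp
  have h4 := Squarefree.natFactorization_le_one p he
  have h5 := Squarefree.natFactorization_le_one p h1
  omega

theorem prod_ne {A T : Finset ℕ} (h0 : 0 ∉ A) (hT : T ⊆ A) : ∏ a ∈ T, a ≠ 0 :=
  Finset.prod_ne_zero_iff.2 fun a ha h => h0 (h ▸ hT ha)

theorem mem_GA {A T : Finset ℕ} (h0 : 0 ∉ A) (hT : T ⊆ A) : sqf (∏ a ∈ T, a) ∈ GA A := by
  obtain ⟨h1, f, hf⟩ := sqf_spec (prod_ne h0 hT)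
  exact ⟨h1, T, hT, f, hf⟩

theorem GA_eq {A : Finset ℕ} (h0 : 0 ∉ A) : GA A = ↑(A.powerset.image fun T => sqf (∏ a ∈ T, a)) := by
  ext e
  rw [Finset.mem_coe, mem_image]
  constructor
  · rintro ⟨he, T, hT, f, hf⟩
    exact ⟨T, mem_powerset.2 hT, sqf_unique (prod_ne h0 hT) he hf⟩
  · rintro ⟨T, hT, rfl⟩
    exact mem_GA h0 (mem_powerset.1 hT)

theorem GA_fin {A : Finset ℕ} (h0 : 0 ∉ A) : (GA A).Finite := by
  rw [GA_eq h0]
  exact Finset.finite_toSet _

/-- the good extensions -/
theorem good_insert {A : Finset ℕ} (h0 : 0 ∉ A) (hA : GoodA A) {m : ℕ} (hm : m ≠ 0) :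
    GoodA (insert m A) ↔ ∀ e ∈ GA A, Cr (-((sqf (e * m) : ℕ) : ℤ)) := by
  have h0' : 0 ∉ insert m A := by
    rw [mem_insert]
    rintro (h | h)
    · exact hm h.symm
    · exact h0 h
  have hf0 : ∀ {T : Finset ℕ} {e f : ℕ}, T ⊆ A → ∏ a ∈ T, a = e * f ^ 2 → f ≠ 0 := by
    intro T e f hT h
    rintro rfl
    rw [zero_pow two_ne_zero, mul_zero] at h
    exact prod_ne h0 hT h
  constructor
  · rintro h e ⟨he, T, hT, f, hf⟩
    have hem : e * m ≠ 0 := mul_ne_zero he.ne_zero hm
    obtain ⟨h1, g, hg⟩ := sqf_spec hem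
    by_cases hmT : m ∈ T
    · -- the subset without `m`
      have h2 : m * ∏ a ∈ T.erase m, a = e * f ^ 2 := by
        rw [← hf]
        exact Finset.mul_prod_erase T (fun a => a) hmT
      have h3 : sqf (e * m) = sqf (∏ a ∈ T.erase m, a) := by
        have hT' : T.erase m ⊆ A := (Finset.erase_subset _ _).trans hT
        obtain ⟨h4, k, hk⟩ := sqf_spec (prod_ne h0 hT')
        have hff := hf0 hT hf
        -- e m f² = m² P, P = s k²
        have h5 : e * m * f ^ 2 = sqf (∏ a ∈ T.erase m, a) * (k * m) ^ 2 := by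
          calc e * m * f ^ 2 = (e * f ^ 2) * m := by ring
            _ = (m * ∏ a ∈ T.erase m, a) * m := by rw [h2]
            _ = (m * (sqf (∏ a ∈ T.erase m, a) * k ^ 2)) * m := by rw [← hk]
            _ = _ := by ring
        have h6 : sqf (e * m * f ^ 2) = sqf (∏ a ∈ T.erase m, a) :=
          sqf_unique (mul_ne_zero hem (pow_ne_zero 2 hff)) h4 h5
        have h7 : sqf (e * m * f ^ 2) = sqf (e * m) := by
          refine sqf_unique (f := g * f) (mul_ne_zero hem (pow_ne_zero 2 hff)) h1 ?_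
          conv_lhs => rw [hg]
          ring
        rw [← h7, h6]
      rw [h3]
      exact h _ (mem_GA h0' ((Finset.erase_subset _ _).trans (hT.trans (Finset.subset_insert _ _))))
    · refine h _ ⟨h1, insert m T, Finset.insert_subset_insert _ hT, g * f, ?_⟩
      rw [Finset.prod_insert hmT, hf]
      calc m * (e * f ^ 2) = (e * m) * f ^ 2 := by ring
        _ = (sqf (e * m) * g ^ 2) * f ^ 2 := by rw [← hg]
        _ = _ := by ring
  · rintro h e ⟨he, T, hT, f, hf⟩
    by_cases hmT : m ∈ T
    · have hT' : T.erase m ⊆ A := by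
        intro a ha
        rw [mem_erase] at ha
        rcases mem_insert.1 (hT ha.2) with h1 | h1
        · exact absurd h1 ha.1
        · exact h1
      have h2 := h _ (mem_GA h0 hT')
      obtain ⟨h4, k, hk⟩ := sqf_spec (prod_ne h0 hT')
      have h3 : sqf (sqf (∏ a ∈ T.erase m, a) * m) = e := by
        have hP : ∏ a ∈ T, a ≠ 0 := prod_ne h0' hT
        have h5 : ∏ a ∈ T, a = sqf (∏ a ∈ T.erase m, a) * m * k ^ 2 := by
          calc ∏ a ∈ T, a = m * ∏ a ∈ T.erase m, a :=
                (Finset.mul_prod_erase T (fun a => a) hmT).symm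
            _ = m * (sqf (∏ a ∈ T.erase m, a) * k ^ 2) := by rw [← hk]
            _ = _ := by ring
        have hsm : sqf (∏ a ∈ T.erase m, a) * m ≠ 0 := mul_ne_zero h4.ne_zero hm
        obtain ⟨h6, g, hg⟩ := sqf_spec hsm
        have h7 : sqf (∏ a ∈ T, a) = sqf (sqf (∏ a ∈ T.erase m, a) * m) := by
          refine sqf_unique (f := g * k) hP h6 ?_
          rw [h5]
          conv_lhs => rw [hg]
          ring
        rw [← h7]
        exact sqf_unique hP he hf
      rw [h3] at h2
      exact h2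
    · refine hA e ⟨he, T, fun a ha => ?_, f, hf⟩
      rcases mem_insert.1 (hT ha) with h1 | h1
      · exact absurd (h1 ▸ ha) hmT
      · exact h1

/-- the family of the squarefree `m` in a residue class such that no squarefree part of `e m`, `e` in
`GA A`, is `7` modulo `8` -/
def FamA (A : Finset ℕ) (q r m : ℕ) : Prop :=
  Squarefree m ∧ m % q = r % q ∧ ∀ e ∈ GA A, sqf (e * m) % 8 ≠ 7

theorem nR_congr {C C' Q Q' : ℕ → Prop} (h1 : ∀ m, C m ↔ C' m) (h2 : ∀ m, C' m → (Q m ↔ Q' m))
    (X : ℕ) : nR C Q X = nR C' Q' X := by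
  unfold nR
  congr 1
  ext m
  simp only [mem_filter]
  constructor
  · rintro ⟨a, b, c⟩
    exact ⟨a, (h1 m).1 b, (h2 m ((h1 m).1 b)).1 c⟩
  · rintro ⟨a, b, c⟩
    exact ⟨a, (h1 m).2 b, (h2 m b).2 c⟩

theorem amR_true (t : ℕ) : amR (fun _ : Fin t => true) = Pool.Agent.N916.GB.eta ^ t := by
  unfold amR
  simp

/-- **The extensions of a good set.** -/
theorem ext_of (hL : S_LAWR) {A : Finset ℕ} (h0 : 0 ∉ A) (hA : GoodA A) {q : ℕ} (hq : 0 < q) (r : ℕ)
    (hF : ∃ m, FamA A q r m) :
    Tendsto (fun X : ℕ => (nR (FamA A q r) (fun m => GoodA (insert m A)) X : ℝ) /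
      nR (FamA A q r) (fun _ => True) X) atTop
      (nhds (Pool.Agent.N916.GB.eta ^ (GA A).ncard)) := by
  have hfin := GA_fin h0
  set G : Finset ℕ := hfin.toFinset with hG
  have hmem : ∀ e, e ∈ G ↔ e ∈ GA A := fun e => hfin.mem_toFinset
  have hcard : (GA A).ncard = G.card := Set.ncard_eq_toFinset_card _ hfin
  set d : Fin G.card → ℕ := fun i => (G.equivFin.symm i : ℕ) with hd
  have hdG : ∀ i, d i ∈ GA A := fun i => (hmem _).1 (G.equivFin.symm i).2
  have hsurj : ∀ e ∈ GA A, ∃ i, d i = e := by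
    intro e he
    refine ⟨G.equivFin ⟨e, (hmem e).2 he⟩, ?_⟩
    simp only [hd, Equiv.symm_apply_apply]
  have hself : ∀ e ∈ GA A, sqf e = e := by
    rintro e ⟨he, -⟩
    exact sqf_unique he.ne_zero he (f := 1) (by ring)
  have hpos : ∀ l, 0 < d l := fun l => Nat.pos_of_ne_zero (hdG l).1.ne_zero
  have hinj : Function.Injective fun l => sqf (d l) := by
    intro i j hij
    have h1 : sqf (d i) = sqf (d j) := hij
    rw [hself _ (hdG i), hself _ (hdG j)] at h1
    exact G.equivFin.symm.injective (Subtype.ext h1)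
  have hfam : ∀ m, FamR d q r m ↔ FamA A q r m := by
    intro m
    unfold FamR FamA
    refine and_congr_right fun _ => and_congr_right fun _ => ⟨fun h e he => ?_, fun h l => h _ (hdG l)⟩
    obtain ⟨i, rfl⟩ := hsurj e he
    exact h i
  have hF' : ∃ m₀, FamR d q r m₀ := by
    obtain ⟨m, hm⟩ := hF
    exact ⟨m, (hfam m).2 hm⟩
  have h1 := hL G.card d hpos hinj q r hq hF' (fun _ => true)
  rw [amR_true] at h1
  rw [hcard]
  refine h1.congr fun X => ?_
  have e1 : nR (FamR d q r) (fun _ => True) X = nR (FamA A q r) (fun _ => True) X :=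
    nR_congr hfam (fun m _ => Iff.rfl) X
  have e2 : nR (FamR d q r) (fun m => ∀ l, (Cr (-(sqf (d l * m) : ℤ)) ↔
      (fun _ : Fin G.card => true) l = true)) X =
      nR (FamA A q r) (fun m => GoodA (insert m A)) X := by
    refine nR_congr hfam (fun m hm => ?_) X
    rw [good_insert h0 hA hm.1.ne_zero]
    constructor
    · intro h e he
      obtain ⟨i, rfl⟩ := hsurj e he
      exact (h i).2 rfl
    · intro h l
      exact ⟨fun _ => rfl, fun _ => h _ (hdG l)⟩
  rw [e1, e2]

end Pool.Agent.L0h1.SJ
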