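import Pool.Agent.L0h1.SJ.SCH0
import Pool.Agent.Results.MP_59f3ad_nt.QuadraticFieldsNaturalDensity

/-!
# Project SJ: Schneider's conjecture for real multiquadratic fields
-/

set_option autoImplicit false
set_option linter.unusedVariables false

open scoped Classical

namespace Pool.Agent.L0h1.SJ

open Finset Filter
open Pool.Agent.L0h86.JR (Cr S_LAWR FamR nR sqf amR)
open Pool.Agent.Results.MP_59f3ad_nt.QuadraticFieldsNaturalDensity (QBar SqrtField ShaZero Cond Good
  one)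

/-- the field generated by the square roots of the elements of `B` -/
noncomputable def SqF (B : Set ℕ) : IntermediateField ℚ QBar :=
  IntermediateField.adjoin ℚ {x | ∃ b ∈ B, x ^ 2 = ((b : ℕ) : QBar)}

theorem SqF_mono {B C : Set ℕ} (h : B ⊆ C) : SqF B ≤ SqF C := by
  refine IntermediateField.adjoin.mono ℚ _ _ ?_
  rintro x ⟨b, hb, hx⟩
  exact ⟨b, h hb, hx⟩

theorem SqF_eq (A : Finset ℕ) : SqF (A : Set ℕ) = SqrtField (A.image fun a : ℕ => (a : ℤ)) := by
  unfold SqF SqrtField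
  congr 1
  ext x
  simp only [Set.mem_ofPred_eq, Finset.mem_coe, mem_image]
  constructor
  · rintro ⟨b, hb, hx⟩
    exact ⟨(b : ℤ), ⟨b, hb, rfl⟩, by rw [hx]; push_cast; rfl⟩
  · rintro ⟨a, ⟨b, hb, rfl⟩, hx⟩
    exact ⟨b, hb, by rw [hx]; push_cast; rfl⟩

theorem good_int {A : Finset ℕ} (h0 : 0 ∉ A) (hA : GoodA A) {r : ℤ} (hr : Odd r) :
    Good (A.image fun a : ℕ => (a : ℤ)) r := by
  intro T hT e f hef he
  refine ⟨fun h => absurd hr (Int.not_odd_iff_even.2 h), fun _ => ?_⟩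
  -- the subset of `A`
  set T₀ : Finset ℕ := A.filter fun a => (a : ℤ) ∈ T with hT₀
  have hTT : T = T₀.image fun a : ℕ => (a : ℤ) := by
    ext x
    rw [mem_image]
    constructor
    · intro hx
      obtain ⟨a, ha, rfl⟩ := mem_image.1 (hT hx)
      exact ⟨a, mem_filter.2 ⟨ha, hx⟩, rfl⟩
    · rintro ⟨a, ha, rfl⟩
      exact (mem_filter.1 ha).2
  have hsub : T₀ ⊆ A := Finset.filter_subset _ _
  have hP : ((∏ a ∈ T₀, a : ℕ) : ℤ) = e * f ^ 2 := by
    rw [← hef, hTT, Finset.prod_image fun a _ b _ h => by exact_mod_cast h]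
    push_cast
    rfl
  have hP0 : (0 : ℤ) < e * f ^ 2 := by
    rw [← hP]
    exact_mod_cast Nat.pos_of_ne_zero (prod_ne h0 hsub)
  have hf0 : 0 < f ^ 2 := by
    rcases (sq_nonneg f).lt_or_eq with h | h
    · exact h
    · rw [← h, mul_zero] at hP0
      exact absurd hP0 (lt_irrefl _)
  have he0 : 0 < e := by
    by_contra hcon
    push Not at hcon
    nlinarith
  obtain ⟨n, rfl⟩ := Int.eq_ofNat_of_zero_le he0.le
  have hn : Squarefree n := Int.squarefree_natCast.1 he
  have h1 : ∏ a ∈ T₀, a = n * f.natAbs ^ 2 := by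
    have h2 : ((∏ a ∈ T₀, a : ℕ) : ℤ) = ((n * f.natAbs ^ 2 : ℕ) : ℤ) := by
      rw [hP]
      push_cast
      rw [sq_abs]
    exact_mod_cast h2
  exact hA n ⟨hn, T₀, hsub, f.natAbs, h1⟩

/-- **Schneider's conjecture, all odd twists.** -/
theorem sch {A : Finset ℕ} (h0 : 0 ∉ A) (hA : GoodA A) {r : ℤ} (hr : Odd r)
    {L : IntermediateField ℚ QBar} (hL : L ≤ SqF (A : Set ℕ)) : ShaZero L r := by
  refine one (A.image fun a : ℕ => (a : ℤ)) ?_ r ?_ (good_int h0 hA hr) L ?_
  · rw [mem_image]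
    rintro ⟨a, ha, h⟩
    have : a = 0 := by exact_mod_cast h
    exact h0 (this ▸ ha)
  · rintro rfl
    exact absurd hr (by decide)
  · rw [← SqF_eq]
    exact hL

/-! ### Large good extensions -/

theorem eta_pos : 0 < Pool.Agent.N916.GB.eta := by
  have h := Pool.Agent.N916.GB.eta_bounds.1
  have h2 : Pool.Agent.N916.GB.eta = ∏' i : ℕ, (1 - (1 / 2 : ℝ) ^ (i + 1)) := rfl
  linarith

theorem exists_large (hL : S_LAWR) {A : Finset ℕ} (h0 : 0 ∉ A) (hA : GoodA A) {q : ℕ} (hq : 0 < q)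
    (r : ℕ) (hF : {m | FamA A q r m}.Infinite) (K : ℕ) :
    ∃ m, K < m ∧ FamA A q r m ∧ GoodA (insert m A) := by
  by_contra hcon
  push Not at hcon
  have hne : ∃ m, FamA A q r m := hF.nonempty
  have h1 := ext_of hL h0 hA hq r hne
  have h2 : Tendsto (fun X : ℕ => nR (FamA A q r) (fun _ => True) X) atTop atTop := by
    refine tendsto_atTop_atTop.2 fun b => ?_
    obtain ⟨T, hT, hTc⟩ := hF.exists_subset_card_eq b
    refine ⟨T.sup id, fun X hX => ?_⟩
    rw [← hTc]
    unfold nR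
    refine Finset.card_le_card fun m hm => ?_
    have hm' : FamA A q r m := hT hm
    simp only [mem_filter, mem_Icc]
    exact ⟨⟨Nat.pos_of_ne_zero hm'.1.ne_zero, (Finset.le_sup (f := id) hm).trans hX⟩, hm', trivial⟩
  have h3 : Tendsto (fun X : ℕ => (K : ℝ) / (nR (FamA A q r) (fun _ => True) X : ℝ)) atTop
      (nhds 0) :=
    Tendsto.div_atTop tendsto_const_nhds (tendsto_natCast_atTop_atTop.comp h2)
  have h4 : ∀ X : ℕ, (nR (FamA A q r) (fun m => GoodA (insert m A)) X : ℝ) /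
      nR (FamA A q r) (fun _ => True) X ≤ (K : ℝ) / (nR (FamA A q r) (fun _ => True) X : ℝ) := by
    intro X
    refine div_le_div_of_nonneg_right ?_ (Nat.cast_nonneg _)
    have h5 : nR (FamA A q r) (fun m => GoodA (insert m A)) X ≤ (Icc 1 K).card := by
      unfold nR
      refine Finset.card_le_card fun m hm => ?_
      simp only [mem_filter, mem_Icc] at hm
      rw [mem_Icc]
      refine ⟨hm.1.1, ?_⟩
      by_contra hlt
      exact hcon m (not_le.1 hlt) hm.2.1 hm.2.2
    rw [Nat.card_Icc] at h5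
    exact_mod_cast (by omega : nR (FamA A q r) (fun m => GoodA (insert m A)) X ≤ K)
  have h6 := le_of_tendsto_of_tendsto' h1 h3 h4
  have h7 := pow_pos eta_pos (GA A).ncard
  linarith

/-! ### The tower -/

/-- the invariant -/
structure Inv (A : Finset ℕ) : Prop where
  good : GoodA A
  sq : ∀ a ∈ A, Squarefree a ∧ 1 < a ∧ a % 8 = 1
  cop : ∀ a ∈ A, ∀ b ∈ A, a ≠ b → a.Coprime b

theorem Inv.zero {A : Finset ℕ} (h : Inv A) : 0 ∉ A := fun h0 => (h.sq 0 h0).1.ne_zero rfl

theorem inv_empty : Inv ∅ := by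
  refine ⟨?_, by simp, by simp⟩
  rintro e ⟨he, T, hT, f, hf⟩
  rw [Finset.subset_empty.1 hT, Finset.prod_empty] at hf
  have h1 : e = 1 := Nat.eq_one_of_mul_eq_one_right hf.symm
  subst h1
  exact Pool.Agent.N848.Q.crit_unit (Or.inr rfl)

theorem inv_GA {A : Finset ℕ} (h : Inv A) {e : ℕ} (he : e ∈ GA A) :
    e ∣ ∏ a ∈ A, a ∧ e % 8 = 1 := by
  obtain ⟨hs, T, hT, f, hf⟩ := he
  have h1 : Squarefree (∏ a ∈ T, a) := by
    have : ∀ T : Finset ℕ, T ⊆ A → Squarefree (∏ a ∈ T, a) := by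
      intro T
      induction T using Finset.induction_on with
      | empty => intro _; rw [Finset.prod_empty]; exact squarefree_one
      | insert a T ha ih =>
        intro hT
        rw [Finset.prod_insert ha]
        have h2 := ih ((Finset.subset_insert _ _).trans hT)
        have haA := hT (mem_insert_self a T)
        refine (Nat.squarefree_mul ?_).2 ⟨(h.sq a haA).1, h2⟩
        refine Nat.Coprime.prod_right fun b hb => ?_
        exact h.cop a haA b (hT (mem_insert_of_mem hb)) (fun hab => ha (hab ▸ hb))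
    exact this T hT
  have h2 : e = ∏ a ∈ T, a := by
    have hf1 : IsUnit f := h1 f ⟨e, by rw [hf]; ring⟩
    rw [Nat.isUnit_iff] at hf1
    rw [hf, hf1]; ring
  refine ⟨h2 ▸ Finset.prod_dvd_prod_of_subset _ _ _ hT, ?_⟩
  have h3 : ∀ T : Finset ℕ, T ⊆ A → (∏ a ∈ T, a) % 8 = 1 := by
    intro T
    induction T using Finset.induction_on with
    | empty => intro _; rw [Finset.prod_empty]; decide
    | insert a T ha ih =>
      intro hT
      rw [Finset.prod_insert ha, Nat.mul_mod, ih ((Finset.subset_insert _ _).trans hT),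
        (h.sq a (hT (mem_insert_self a T))).2.2]
  rw [h2]
  exact h3 T hT

theorem inv_step (hL : S_LAWR) {A : Finset ℕ} (h : Inv A) :
    ∃ m, m ∉ A ∧ Inv (insert m A) := by
  set P : ℕ := ∏ a ∈ A, a with hP
  have hP0 : 0 < P := Nat.pos_of_ne_zero (prod_ne h.zero (Finset.Subset.refl _))
  have hq : 0 < 8 * P := by omega
  have hfam : ∀ m, Squarefree m → m % (8 * P) = 1 % (8 * P) → FamA A (8 * P) 1 m := by
    intro m hm hmod
    refine ⟨hm, hmod, fun e he => ?_⟩
    obtain ⟨h1, h2⟩ := inv_GA h he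
    have h3 : m % 8 = 1 := by
      have := Nat.ModEq.of_mul_right P (show m ≡ 1 [MOD 8 * P] from hmod)
      exact this
    have h4 : m ≡ 1 [MOD P] := Nat.ModEq.of_mul_left 8 (show m ≡ 1 [MOD 8 * P] from hmod)
    have h5 : e.Coprime m := by
      have h6 : m ≡ 1 [MOD e] := h4.of_dvd h1
      have h7 := h6.gcd_eq
      rw [Nat.gcd_one_left] at h7
      exact (Nat.coprime_comm.1 h7)
    have h8 : Squarefree (e * m) := (Nat.squarefree_mul h5).2 ⟨he.1, hm⟩
    rw [sqf_unique h8.ne_zero h8 (f := 1) (by ring), Nat.mul_mod, h2, h3]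
    norm_num
  have hinf : {m | FamA A (8 * P) 1 m}.Infinite := by
    rw [Set.infinite_iff_exists_gt]
    intro K
    obtain ⟨p, hp, hpp, hp1⟩ := Nat.forall_exists_prime_gt_and_modEq (q := 8 * P) (a := 1) K
      (by omega) (Nat.coprime_one_left _)
    exact ⟨p, hfam p hpp.prime.squarefree hp1, hp⟩
  obtain ⟨m, hmK, hmF, hmG⟩ := exists_large hL h.zero h.good hq 1 hinf (8 * P)
  have h4 : m ≡ 1 [MOD P] := Nat.ModEq.of_mul_left 8 (show m ≡ 1 [MOD 8 * P] from hmF.2.1)
  have h3 : m % 8 = 1 := Nat.ModEq.of_mul_right P (show m ≡ 1 [MOD 8 * P] from hmF.2.1)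
  have hcop : ∀ a ∈ A, a.Coprime m := by
    intro a ha
    have h6 : m ≡ 1 [MOD a] := h4.of_dvd (Finset.dvd_prod_of_mem _ ha)
    have h7 := h6.gcd_eq
    rw [Nat.gcd_one_left] at h7
    exact (Nat.coprime_comm.1 h7)
  have hmA : m ∉ A := by
    intro hm
    have h8 := Nat.le_of_dvd hP0 (Finset.dvd_prod_of_mem _ hm)
    omega
  refine ⟨m, hmA, hmG, ?_, ?_⟩
  · intro a ha
    rcases mem_insert.1 ha with rfl | ha
    · exact ⟨hmF.1, by omega, h3⟩
    · exact h.sq a ha
  · intro a ha b hb hab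
    rcases mem_insert.1 ha with h1 | h1 <;> rcases mem_insert.1 hb with h2 | h2
    · exact absurd (h1.trans h2.symm) hab
    · rw [h1]; exact (hcop b h2).symm
    · rw [h2]; exact hcop a h1
    · exact h.cop a h1 b h2 hab

/-- the good sets are stable under subsets -/
theorem good_sub {A B : Finset ℕ} (h : A ⊆ B) (hB : GoodA B) : GoodA A := by
  rintro e ⟨he, T, hT, f, hf⟩
  exact hB e ⟨he, T, hT.trans h, f, hf⟩

/-- **The tower.** -/
theorem tower (hL : S_LAWR) : ∃ B : Set ℕ, B.Infinite ∧ (∀ b ∈ B, Squarefree b ∧ 1 < b ∧ b % 8 = 1) ∧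
    (∀ a ∈ B, ∀ b ∈ B, a ≠ b → a.Coprime b) ∧ ∀ A : Finset ℕ, (A : Set ℕ) ⊆ B → GoodA A := by
  choose! g hg using fun (A : Finset ℕ) (h : Inv A) => inv_step hL h
  obtain ⟨S, hS0, hS1⟩ : ∃ S : ℕ → Finset ℕ, S 0 = ∅ ∧
      ∀ n, S (n + 1) = insert (g (S n)) (S n) :=
    ⟨fun n => Nat.rec ∅ (fun _ A => insert (g A) A) n, rfl, fun n => rfl⟩
  have hinv : ∀ n, Inv (S n) := by
    intro n
    induction n with
    | zero => rw [hS0]; exact inv_empty
    | succ n ih => rw [hS1]; exact (hg _ ih).2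
  have hmono : Monotone S := monotone_nat_of_le_succ fun n => by
    rw [hS1]
    exact Finset.subset_insert _ _
  have hcard : ∀ n, (S n).card = n := by
    intro n
    induction n with
    | zero => rw [hS0]; rfl
    | succ n ih => rw [hS1, Finset.card_insert_of_notMem (hg _ (hinv n)).1, ih]
  have hfin : ∀ A : Finset ℕ, (A : Set ℕ) ⊆ ⋃ n : ℕ, (↑(S n) : Set ℕ) → ∃ n, A ⊆ S n := by
    intro A hA
    induction A using Finset.induction_on with
    | empty => exact ⟨0, Finset.empty_subset _⟩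
    | insert a A ha ih =>
      rw [Finset.coe_insert, Set.insert_subset_iff] at hA
      obtain ⟨n, hn⟩ := ih hA.2
      obtain ⟨k, hk⟩ := Set.mem_iUnion.1 hA.1
      refine ⟨max n k, Finset.insert_subset (hmono (le_max_right _ _) hk)
        (hn.trans (hmono (le_max_left _ _)))⟩
  refine ⟨⋃ n : ℕ, (↑(S n) : Set ℕ), ?_, ?_, ?_, ?_⟩
  · intro hf
    obtain ⟨n, hn⟩ := hfin hf.toFinset (by rw [hf.coe_toFinset])
    have h1 : S (n + 1) ⊆ hf.toFinset := by
      intro a ha
      rw [hf.mem_toFinset]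
      exact Set.mem_iUnion.2 ⟨n + 1, ha⟩
    have h2 := Finset.card_le_card (h1.trans hn)
    rw [hcard, hcard] at h2
    omega
  · intro b hb
    obtain ⟨n, hn⟩ := Set.mem_iUnion.1 hb
    exact (hinv n).sq b hn
  · intro a ha b hb hab
    obtain ⟨n, hn⟩ := Set.mem_iUnion.1 ha
    obtain ⟨k, hk⟩ := Set.mem_iUnion.1 hb
    exact (hinv (max n k)).cop a (hmono (le_max_left _ _) hn) b (hmono (le_max_right _ _) hk) hab
  · intro A hA
    obtain ⟨n, hn⟩ := hfin A hA
    exact good_sub hn (hinv n).good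

/-- a number field in the field of square roots is generated by finitely many of them -/
theorem fin_sub {B : Set ℕ} {L : IntermediateField ℚ QBar} [FiniteDimensional ℚ L]
    (hL : L ≤ SqF B) : ∃ A : Finset ℕ, (A : Set ℕ) ⊆ B ∧ L ≤ SqF (A : Set ℕ) := by
  -- every element
  have h1 : ∀ x ∈ L, ∃ A : Finset ℕ, (A : Set ℕ) ⊆ B ∧ x ∈ SqF (A : Set ℕ) := by
    intro x hx
    obtain ⟨T, hT, hxT⟩ := IntermediateField.exists_finset_of_mem_adjoin (hL hx)
    have h2 : ∀ y ∈ T, ∃ b ∈ B, y ^ 2 = ((b : ℕ) : QBar) := fun y hy => hT hy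
    choose! b hb using h2
    refine ⟨T.image b, ?_, ?_⟩
    · intro a ha
      rw [Finset.mem_coe, mem_image] at ha
      obtain ⟨y, hy, rfl⟩ := ha
      exact (hb y hy).1
    · refine IntermediateField.adjoin.mono ℚ _ _ (fun y hy => ?_) hxT
      exact ⟨b y, Finset.mem_coe.2 (mem_image_of_mem b hy), (hb y hy).2⟩
  choose! A hA using h1
  -- a basis
  let v := Module.finBasis ℚ L
  refine ⟨univ.biUnion fun i => A (v i : QBar), ?_, ?_⟩
  · intro a ha
    rw [Finset.mem_coe, mem_biUnion] at ha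
    obtain ⟨i, -, hi⟩ := ha
    exact (hA (v i : QBar) (v i).2).1 hi
  · intro x hx
    have h2 := v.sum_repr ⟨x, hx⟩
    obtain ⟨c, hc⟩ : ∃ c : _ → ℚ, x = ∑ i, c i • (v i : QBar) := by
      refine ⟨fun i => v.repr ⟨x, hx⟩ i, ?_⟩
      have h4 : ((∑ i, (v.repr ⟨x, hx⟩ i) • v i : L) : QBar) = x :=
        congrArg (fun y : L => (y : QBar)) h2
      refine h4.symm.trans ?_
      push_cast
      rfl
    rw [hc]
    refine sum_mem fun i _ => ?_
    refine IntermediateField.smul_mem _ ?_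
    refine SqF_mono ?_ (hA (v i : QBar) (v i).2).2
    intro a ha
    rw [Finset.mem_coe, mem_biUnion]
    exact ⟨i, mem_univ _, ha⟩

end Pool.Agent.L0h1.SJ
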