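import Pool.Agent.L0h1.SJ.SCH1

/-!
# Project SJ: all twists, biquadratic fields with `√-1`
-/

set_option autoImplicit false
set_option linter.unusedVariables false

open scoped Classical

namespace Pool.Agent.L0h1.SJ

open Finset Filter
open Pool.Agent.L0h86.JR (Cr S_LAWR FamR nR sqf amR)
open Pool.Agent.Results.MP_59f3ad_nt.QuadraticFieldsNaturalDensity (QBar SqrtField ShaZero Cond Good
  one)

/-- the field generated by `√-1` and the square roots of the elements of `B` -/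
noncomputable def SqI (B : Set ℕ) : IntermediateField ℚ QBar :=
  IntermediateField.adjoin ℚ {x | x ^ 2 = -1 ∨ ∃ b ∈ B, x ^ 2 = ((b : ℕ) : QBar)}

theorem SqI_eq (A : Finset ℕ) :
    SqI (A : Set ℕ) = SqrtField (insert (-1) (A.image fun a : ℕ => (a : ℤ))) := by
  unfold SqI SqrtField
  congr 1
  ext x
  simp only [Set.mem_ofPred_eq, Finset.mem_coe, mem_insert, mem_image]
  constructor
  · rintro (h | ⟨b, hb, hx⟩)
    · exact ⟨-1, Or.inl rfl, by rw [h]; push_cast; rfl⟩
    · exact ⟨(b : ℤ), Or.inr ⟨b, hb, rfl⟩, by rw [hx]; push_cast; rfl⟩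
  · rintro ⟨a, h | ⟨b, hb, rfl⟩, hx⟩
    · left
      rw [hx, h]
      push_cast
      rfl
    · right
      exact ⟨b, hb, by rw [hx]; push_cast; rfl⟩

/-- the classes modulo `8` -/
def C8 (e : ℕ) : Prop := e % 8 = 2 ∨ e % 8 = 3 ∨ e % 8 = 5 ∨ e % 8 = 6

theorem good_allA {A : Finset ℕ} (h0 : 0 ∉ A) (hA : GoodA A) (h8 : ∀ e ∈ GA A, e = 1 ∨ C8 e)
    (r : ℤ) : Good (insert (-1) (A.image fun a : ℕ => (a : ℤ))) r := by
  have hneg : ∀ e ∈ GA A, Cond (-(e : ℤ)) := hA
  have hpos : ∀ e ∈ GA A, Cond (e : ℤ) := by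
    intro e he
    rcases h8 e he with rfl | h
    · exact Pool.Agent.N848.Q.crit_unit (Or.inl (by norm_num))
    · exact Pool.Agent.N848.Q.crit_pos_of_neg he.1 h (hA e he)
  intro T hT e f hef he
  -- the subset of `A`
  set T₀ : Finset ℕ := A.filter fun a => (a : ℤ) ∈ T with hT₀
  have hsub : T₀ ⊆ A := Finset.filter_subset _ _
  have hprod : ∏ a ∈ T.erase (-1), a = ((∏ a ∈ T₀, a : ℕ) : ℤ) := by
    have hTT : T.erase (-1) = T₀.image fun a : ℕ => (a : ℤ) := by
      ext x
      rw [mem_image, mem_erase]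
      constructor
      · rintro ⟨hx1, hx⟩
        rcases mem_insert.1 (hT hx) with h | h
        · exact absurd h hx1
        · obtain ⟨a, ha, rfl⟩ := mem_image.1 h
          exact ⟨a, mem_filter.2 ⟨ha, hx⟩, rfl⟩
      · rintro ⟨a, ha, rfl⟩
        exact ⟨by omega, (mem_filter.1 ha).2⟩
    rw [hTT, Finset.prod_image fun a _ b _ h => by exact_mod_cast h]
    push_cast
    rfl
  have habs : ((∏ a ∈ T₀, a : ℕ)) = e.natAbs * f.natAbs ^ 2 := by
    have h1 : (∏ a ∈ T, a).natAbs = (∏ a ∈ T.erase (-1), a).natAbs := by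
      by_cases h : (-1 : ℤ) ∈ T
      · rw [← Finset.mul_prod_erase T (fun a => a) h, Int.natAbs_mul]
        simp
      · rw [Finset.erase_eq_of_notMem h]
    rw [hef, hprod, Int.natAbs_natCast, Int.natAbs_mul, Int.natAbs_pow] at h1
    exact h1.symm
  have hmem : e.natAbs ∈ GA A := ⟨Int.squarefree_natAbs.2 he, T₀, hsub, f.natAbs, habs⟩
  rcases Int.natAbs_eq e with h | h
  · rw [h]
    exact ⟨fun _ => hpos _ hmem, fun _ => hneg _ hmem⟩
  · rw [h, neg_neg]
    exact ⟨fun _ => hneg _ hmem, fun _ => hpos _ hmem⟩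

/-- **All twists.** -/
theorem schI {A : Finset ℕ} (h0 : 0 ∉ A) (hA : GoodA A) (h8 : ∀ e ∈ GA A, e = 1 ∨ C8 e) {r : ℤ}
    (hr : r ≠ 0) {L : IntermediateField ℚ QBar} (hL : L ≤ SqI (A : Set ℕ)) : ShaZero L r := by
  refine one (insert (-1) (A.image fun a : ℕ => (a : ℤ))) ?_ r hr (good_allA h0 hA h8 r) L ?_
  · rw [mem_insert, mem_image]
    rintro (h | ⟨a, ha, h⟩)
    · norm_num at h
    · have : a = 0 := by exact_mod_cast h
      exact h0 (this ▸ ha)
  · rw [← SqI_eq]
    exact hL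

/-! ### Pairs -/

theorem sqf_self {e : ℕ} (he : Squarefree e) : sqf e = e :=
  sqf_unique he.ne_zero he (f := 1) (by ring)

theorem sqf_mul {d m : ℕ} (hd : Squarefree d) (hm : Squarefree m) :
    sqf (d * m) = (d / d.gcd m) * (m / d.gcd m) := by
  have hg : 0 < d.gcd m := Nat.gcd_pos_of_pos_left _ (Nat.pos_of_ne_zero hd.ne_zero)
  have hcop := Nat.coprime_div_gcd_div_gcd hg
  have h1 : Squarefree (d / d.gcd m) := hd.squarefree_of_dvd (Nat.div_dvd_of_dvd (Nat.gcd_dvd_left _ _))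
  have h2 : Squarefree (m / d.gcd m) := hm.squarefree_of_dvd (Nat.div_dvd_of_dvd (Nat.gcd_dvd_right _ _))
  refine sqf_unique (f := d.gcd m) (mul_ne_zero hd.ne_zero hm.ne_zero)
    ((Nat.squarefree_mul hcop).2 ⟨h1, h2⟩) ?_
  conv_lhs => rw [← Nat.div_mul_cancel (Nat.gcd_dvd_left d m)]
  obtain ⟨k, hk⟩ := Nat.gcd_dvd_right d m
  have h3 : m / d.gcd m * d.gcd m = m := Nat.div_mul_cancel (Nat.gcd_dvd_right d m)
  calc d / d.gcd m * d.gcd m * m = d / d.gcd m * d.gcd m * (m / d.gcd m * d.gcd m) := by rw [h3]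
    _ = _ := by ring

theorem class_mod {d m m₀ : ℕ} (hd : Squarefree d) (hm : Squarefree m) (hm₀ : Squarefree m₀)
    (h : m ≡ m₀ [MOD 8 * d]) : sqf (d * m) % 8 = sqf (d * m₀) % 8 := by
  have h1 : d.gcd m = d.gcd m₀ := by
    have h2 : m ≡ m₀ [MOD d] := Nat.ModEq.of_mul_left 8 h
    have h3 := h2.gcd_eq
    rw [Nat.gcd_comm d m, Nat.gcd_comm d m₀]
    exact h3
  rw [sqf_mul hd hm, sqf_mul hd hm₀, ← h1]
  have hg : 0 < d.gcd m := Nat.gcd_pos_of_pos_left _ (Nat.pos_of_ne_zero hd.ne_zero)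
  have h4 : m / d.gcd m ≡ m₀ / d.gcd m [MOD 8 * (d / d.gcd m)] := by
    have h5 : d.gcd m * (m / d.gcd m) ≡ d.gcd m * (m₀ / d.gcd m)
        [MOD d.gcd m * (8 * (d / d.gcd m))] := by
      rw [Nat.mul_div_cancel' (Nat.gcd_dvd_right d m),
        Nat.mul_div_cancel' (h1 ▸ Nat.gcd_dvd_right d m₀)]
      have h6 : d.gcd m * (8 * (d / d.gcd m)) = 8 * d := by
        conv_rhs => rw [← Nat.mul_div_cancel' (Nat.gcd_dvd_left d m)]
        ring
      rw [h6]
      exact h
    exact Nat.ModEq.mul_left_cancel' hg.ne' h5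
  exact Nat.ModEq.mul_left _ (Nat.ModEq.of_mul_right (d / d.gcd m) h4)

theorem GA_single {d : ℕ} (hd : Squarefree d) : GA {d} = {1, d} := by
  have h0 : (0 : ℕ) ∉ ({d} : Finset ℕ) := by
    rw [mem_singleton]
    exact hd.ne_zero.symm
  rw [GA_eq h0]
  ext e
  simp only [Finset.mem_coe, mem_image, mem_powerset, Finset.subset_singleton_iff,
    Set.mem_insert_iff, Set.mem_singleton_iff]
  constructor
  · rintro ⟨T, rfl | rfl, h⟩
    · left
      rw [← h, Finset.prod_empty]
      exact sqf_self squarefree_one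
    · right
      rw [← h, Finset.prod_singleton]
      exact sqf_self hd
  · rintro (rfl | rfl)
    · exact ⟨∅, Or.inl rfl, by rw [Finset.prod_empty]; exact sqf_self squarefree_one⟩
    · exact ⟨{e}, Or.inr rfl, by rw [Finset.prod_singleton]; exact sqf_self hd⟩

theorem GA_pair {d m e : ℕ} (hd : Squarefree d) (hm : Squarefree m)
    (he : e ∈ GA (insert m {d})) : e = 1 ∨ e = d ∨ e = m ∨ e = sqf (d * m) := by
  have h0 : (0 : ℕ) ∉ (insert m {d} : Finset ℕ) := by
    rw [mem_insert, mem_singleton]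
    rintro (h | h)
    · exact hm.ne_zero h.symm
    · exact hd.ne_zero h.symm
  rw [GA_eq h0, Finset.mem_coe, mem_image] at he
  obtain ⟨T, hT, rfl⟩ := he
  rw [mem_powerset] at hT
  by_cases h1 : m ∈ T
  · have h2 : T.erase m ⊆ {d} := by
      intro a ha
      rw [mem_erase] at ha
      rcases mem_insert.1 (hT ha.2) with h | h
      · exact absurd h ha.1
      · exact h
    rw [← Finset.mul_prod_erase T (fun a => a) h1]
    rcases Finset.subset_singleton_iff.1 h2 with h | h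
    · right; right; left
      rw [h, Finset.prod_empty, mul_one]
      exact sqf_self hm
    · right; right; right
      rw [h, Finset.prod_singleton, mul_comm]
  · have h2 : T ⊆ {d} := by
      intro a ha
      rcases mem_insert.1 (hT ha) with h | h
      · exact absurd (h ▸ ha) h1
      · exact h
    rcases Finset.subset_singleton_iff.1 h2 with rfl | rfl
    · left
      rw [Finset.prod_empty]
      exact sqf_self squarefree_one
    · right; left
      rw [Finset.prod_singleton]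
      exact sqf_self hd

theorem c8_ne {e : ℕ} (h : C8 e) : e % 8 ≠ 7 := by
  rcases h with h | h | h | h <;> omega

/-- the family of the all-twists theorem -/
theorem pair {d : ℕ} (hd : Squarefree d) (hd8 : C8 d) (hdC : Cr (-(d : ℤ))) {q : ℕ} (hq : 8 * d ∣ q)
    {r m₀ : ℕ} (hm₀ : Squarefree m₀) (hr : m₀ % q = r % q) (h1 : C8 m₀) (h2 : C8 (sqf (d * m₀))) :
    GoodA {d} ∧ (∀ m, FamA {d} q r m ↔ Squarefree m ∧ m % q = r % q) ∧
    ∀ m, Squarefree m → m % q = r % q → GoodA (insert m {d}) →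
      ∀ k : ℤ, k ≠ 0 → ∀ L : IntermediateField ℚ QBar, L ≤ SqI ((insert m {d} : Finset ℕ) : Set ℕ) →
        ShaZero L k := by
  have hcl : ∀ m, Squarefree m → m % q = r % q → C8 m ∧ C8 (sqf (d * m)) := by
    intro m hm hmr
    have e1 : m ≡ m₀ [MOD q] := hmr.trans hr.symm
    have e2 : m ≡ m₀ [MOD 8 * d] := e1.of_dvd hq
    have e3 : m % 8 = m₀ % 8 := Nat.ModEq.of_mul_right d e2
    have e4 := class_mod hd hm hm₀ e2
    unfold C8 at h1 h2 ⊢
    rw [e3, e4]
    exact ⟨h1, h2⟩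
  have hgood : GoodA {d} := by
    intro e he
    rw [GA_single hd] at he
    rcases he with rfl | he
    · exact Pool.Agent.N848.Q.crit_unit (Or.inr rfl)
    · rw [Set.mem_singleton_iff.1 he]
      exact hdC
  refine ⟨hgood, fun m => ⟨fun h => ⟨h.1, h.2.1⟩, fun h => ⟨h.1, h.2, fun e he => ?_⟩⟩, ?_⟩
  · rw [GA_single hd] at he
    obtain ⟨c1, c2⟩ := hcl m h.1 h.2
    rcases he with rfl | he
    · rw [one_mul, sqf_self h.1]
      exact c8_ne c1
    · rw [Set.mem_singleton_iff.1 he]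
      exact c8_ne c2
  · intro m hm hmr hG k hk L hL
    obtain ⟨c1, c2⟩ := hcl m hm hmr
    have h0 : (0 : ℕ) ∉ (insert m {d} : Finset ℕ) := by
      rw [mem_insert, mem_singleton]
      rintro (h | h)
      · exact hm.ne_zero h.symm
      · exact hd.ne_zero h.symm
    refine schI h0 hG (fun e he => ?_) hk hL
    rcases GA_pair hd hm he with h | h | h | h
    · exact Or.inl h
    · exact Or.inr (h ▸ hd8)
    · exact Or.inr (h ▸ c1)
    · exact Or.inr (h ▸ c2)

theorem GA_single_card {d : ℕ} (hd : Squarefree d) (h : d ≠ 1) : (GA {d}).ncard = 2 := by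
  rw [GA_single hd, Set.ncard_pair h.symm]

end Pool.Agent.L0h1.SJ
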