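import Mathlib

/-!
# Project SJ (helper1): the joint law of the `4`-ranks, statements on linear algebra over `𝔽_2`

`t` linear systems with unknowns indexed by `U l ⊕ J` (`J` are the large primes, common to all the
systems, `U l` the small primes and the fixed primes of the system `l`). The common symbols of the
large primes are uniformly distributed (`σ`); then the events (all solutions of the system `l` are
constant) are asymptotically independent with probability `eta`.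
The definitions `ps`, `sx`, `pt`, `Gv`, `eta` are those of `Pool/Agent/N916/GB/Stm.lean`.
-/

set_option autoImplicit false
set_option linter.unusedVariables false

open scoped Classical

namespace Pool.Agent.L0h1.SJ

open Finset

/-- the limit `(1 - 1/2) (1 - 1/4) (1 - 1/8) ⋯ = 0.2888...` -/
noncomputable def eta : ℝ := ∏' i : ℕ, (1 - (1 / 2 : ℝ) ^ (i + 1))

/-- the pairs of indices -/
noncomputable def ps (J : Type) [Fintype J] [LinearOrder J] : Finset (J × J) :=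
  univ.filter fun e => e.1 < e.2

/-- the symmetric extension -/
noncomputable def sx {J : Type} [Fintype J] [LinearOrder J] (σ : ps J → ZMod 2) (k l : J) : ZMod 2 :=
  if h : (k, l) ∈ ps J then σ ⟨(k, l), h⟩ else if h' : (l, k) ∈ ps J then σ ⟨(l, k), h'⟩ else 0

/-- a function of two indices, changed on the large indices -/
noncomputable def pt {U J : Type} (F : U ⊕ J → U ⊕ J → ZMod 2) (δ : J → J → ZMod 2) :
    U ⊕ J → U ⊕ J → ZMod 2
  | Sum.inr k, Sum.inr l => F (Sum.inr k) (Sum.inr l) + δ k l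
  | i, j => F i j

/-- the good systems: all the solutions are constant -/
def Gv {V : Type} [Fintype V] (N : V → V → ZMod 2) : Prop :=
  ∀ x : V → ZMod 2, (∀ q, ∑ p, (x p + x q) * N q p = 0) → ∀ p q, x p = x q

/-! ### One system: the number of the independent tuples of solutions -/

/-- `x` is a solution -/
def IsSol {V : Type} [Fintype V] (M : V → V → ZMod 2) (x : V → ZMod 2) : Prop :=
  ∀ q, ∑ p, (x p + x q) * M q p = 0

/-- the vectors are linearly independent modulo the constants -/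
def Ind {V : Type} [Fintype V] {k : ℕ} (ξ : Fin k → V → ZMod 2) : Prop :=
  ∀ c : Fin k → ZMod 2, (∃ i, c i ≠ 0) → ∀ e : ZMod 2, ∃ p, ∑ i, c i * ξ i p ≠ e

/-- the number of the `k`-tuples of solutions which are independent modulo the constants -/
noncomputable def cnt {V : Type} [Fintype V] (k : ℕ) (M : V → V → ZMod 2) : ℕ :=
  (univ.filter fun ξ : Fin k → V → ZMod 2 => (∀ i, IsSol M (ξ i)) ∧ Ind ξ).card

/-- the coefficients of the inversion formula -/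
noncomputable def ak (k : ℕ) : ℝ := (-1) ^ k / (2 ^ k * ∏ i ∈ range k, ((2 : ℝ) ^ (i + 1) - 1))

/-- BON: the truncated inversion formula. -/
def S_BON : Prop := ∀ (V : Type) [Fintype V] [Nonempty V] (M : V → V → ZMod 2) (T : ℕ),
  |(if Gv M then (1 : ℝ) else 0) - ∑ k ∈ range (T + 1), ak k * cnt k M| ≤
    |ak (T + 1)| * cnt (T + 1) M

/-- EUL: Euler's identity. -/
def S_EUL : Prop := Filter.Tendsto (fun T : ℕ => ∑ k ∈ range (T + 1), ak k * 2 ^ k)
  Filter.atTop (nhds eta)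

/-! ### Several systems -/

/-- the contribution of the small indices to the diagonal at a large index -/
noncomputable def de {t : ℕ} {U : Fin t → Type} [∀ l, Fintype (U l)] {J : Type}
    (N : ∀ l, U l ⊕ J → U l ⊕ J → ZMod 2) (l : Fin t) (k : J) : ZMod 2 :=
  ∑ v, N l (Sum.inr k) (Sum.inl v)

/-- the hypotheses on the systems: `w` is the relation of the rows, `uU`, `uJ` the class modulo
`4`, `NJ` the common symbols, `x` and `JR` the types which separate the systems -/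
structure Hl {t n : ℕ} {U : Fin t → Type} [∀ l, Fintype (U l)] {J : Type} [Fintype J]
    (w : ∀ l, U l ⊕ J → ZMod 2) (uU : ∀ l, U l → ZMod 2) (uJ : J → ZMod 2)
    (N : ∀ l, U l ⊕ J → U l ⊕ J → ZMod 2) (NJ : J → J → ZMod 2)
    (x : Fin t → Fin n → ZMod 2) (JR : Fin n → Finset J) : Prop where
  w1 : ∀ l k, w l (Sum.inr k) = 1
  su : ∀ l, ∑ v, uU l v + ∑ k, uJ k = 1
  rc : ∀ l i j, i ≠ j →
    w l i * N l i j + w l j * N l j i = Sum.elim (uU l) uJ i * Sum.elim (uU l) uJ j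
  w0 : ∀ l v, w l (Sum.inl v) = 0 → uU l v = 1 ∧ ∀ v', w l (Sum.inl v') = 0 → v = v'
  com : ∀ l k k', k ≠ k' → N l (Sum.inr k) (Sum.inr k') = NJ k k'
  lab : ∀ l (b : U l → ZMod 2) (e : ZMod 2), ((∃ v, b v ≠ 0) ∨ e ≠ 0) →
    ∃ k, ∑ v, b v * N l (Sum.inl v) (Sum.inr k) + e * uJ k ≠ 0
  jr : ∀ r, ∀ k ∈ JR r, uJ k = 0 ∧ ∀ l l', de N l k + x l r = de N l' k + x l' r
  sep : ∀ l l', l ≠ l' → ∃ r, x l r ≠ x l' r

/-- the number of the small indices plus one -/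
noncomputable def sz {t : ℕ} (U : Fin t → Type) [∀ l, Fintype (U l)] : ℕ :=
  ∑ l, Fintype.card (U l) + 1

/-- FINAL of the linear algebra: the joint law of the random completions. -/
def S_LAJ : Prop := ∀ (t n : ℕ) (ε : ℝ), 0 < ε → ∃ C₀ : ℕ, ∀ (U : Fin t → Type)
  [∀ l, Fintype (U l)] (J : Type) [Fintype J] [LinearOrder J]
  (w : ∀ l, U l ⊕ J → ZMod 2) (uU : ∀ l, U l → ZMod 2) (uJ : J → ZMod 2)
  (N : ∀ l, U l ⊕ J → U l ⊕ J → ZMod 2) (NJ : J → J → ZMod 2)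
  (x : Fin t → Fin n → ZMod 2) (JR : Fin n → Finset J), Hl w uU uJ N NJ x JR →
  C₀ * sz U ≤ (univ.filter fun k => uJ k = 1).card → (∀ r, C₀ * sz U ≤ (JR r).card) →
  |((univ.filter fun σ : ps J → ZMod 2 => ∀ l, Gv (pt (N l) (sx σ))).card : ℝ) /
    2 ^ (ps J).card - eta ^ t| ≤ ε

/-- MOM: the mixed moments of the numbers of independent tuples. -/
def S_MOM : Prop := ∀ (t n : ℕ) (K : Fin t → ℕ) (ε : ℝ), 0 < ε → ∃ C₀ : ℕ, ∀ (U : Fin t → Type)
  [∀ l, Fintype (U l)] (J : Type) [Fintype J] [LinearOrder J]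
  (w : ∀ l, U l ⊕ J → ZMod 2) (uU : ∀ l, U l → ZMod 2) (uJ : J → ZMod 2)
  (N : ∀ l, U l ⊕ J → U l ⊕ J → ZMod 2) (NJ : J → J → ZMod 2)
  (x : Fin t → Fin n → ZMod 2) (JR : Fin n → Finset J), Hl w uU uJ N NJ x JR →
  C₀ * sz U ≤ (univ.filter fun k => uJ k = 1).card → (∀ r, C₀ * sz U ≤ (JR r).card) →
  |(∑ σ : ps J → ZMod 2, ∏ l, (cnt (K l) (pt (N l) (sx σ)) : ℝ)) / 2 ^ (ps J).card -
    2 ^ (∑ l, K l)| ≤ ε

/-- ASM: from the moments to the law. -/
def S_ASM : Prop := S_BON → S_EUL → S_MOM → S_LAJ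

/-! ### The tuples -/

/-- the sign -/
noncomputable def sr (a : ZMod 2) : ℝ := if a = 0 then 1 else -1

section tuples

variable {t : ℕ} {K : Fin t → ℕ} {U : Fin t → Type} [∀ l, Fintype (U l)] {J : Type} [Fintype J]

/-- the tuples of vectors -/
abbrev Tu {t : ℕ} (K : Fin t → ℕ) (U : Fin t → Type) (J : Type) : Type :=
  ∀ l, Fin (K l) → U l ⊕ J → ZMod 2

/-- the index set of a tuple -/
abbrev Ix {t : ℕ} (K : Fin t → ℕ) : Type := Σ l, Fin (K l)

/-- the labels of the large indices -/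
def Xf (ξ : Tu K U J) (k : J) (i : Ix K) : ZMod 2 := ξ i.1 i.2 (Sum.inr k)

/-- the left side of the equation at the small index `v` -/
noncomputable def sq (N : ∀ l, U l ⊕ J → U l ⊕ J → ZMod 2) (ξ : Tu K U J) (l : Fin t)
    (i : Fin (K l)) (v : U l) : ZMod 2 :=
  ∑ p, (ξ l i p + ξ l i (Sum.inl v)) * N l (Sum.inl v) p

/-- the equations at the small indices -/
def Sml (N : ∀ l, U l ⊕ J → U l ⊕ J → ZMod 2) (ξ : Tu K U J) : Prop := ∀ l i v, sq N ξ l i v = 0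

/-- the left sides of the equations at the large indices, for `σ = 0` -/
noncomputable def tg (N : ∀ l, U l ⊕ J → U l ⊕ J → ZMod 2) (ξ : Tu K U J) (q : J) (i : Ix K) :
    ZMod 2 :=
  ∑ p, (ξ i.1 i.2 p + ξ i.1 i.2 (Sum.inr q)) * N i.1 (Sum.inr q) p

/-- the tuple consists of independent vectors for every system -/
def IndT (ξ : Tu K U J) : Prop := ∀ l, Ind (ξ l)

/-- all the systems, changed by `σ`, have the given solutions -/
def SolT [LinearOrder J] (N : ∀ l, U l ⊕ J → U l ⊕ J → ZMod 2) (σ : ps J → ZMod 2)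
    (ξ : Tu K U J) : Prop := ∀ l i, IsSol (pt (N l) (sx σ)) (ξ l i)

end tuples

section labels

variable {J I : Type} [Fintype J] [Fintype I]

/-- the relations of the labels `X` -/
noncomputable def RX (X : J → I → ZMod 2) : Finset (J → I → ZMod 2) :=
  univ.filter fun y => ∀ p q, ∑ i, (y p i + y q i) * (X p i + X q i) = 0

/-- the linear forms which are constant on the labels -/
noncomputable def DX (X : J → I → ZMod 2) : Finset (I → ZMod 2) :=
  univ.filter fun c => ∀ p q, ∑ i, c i * (X p i + X q i) = 0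

/-- the pairing -/
def pr (y b : J → I → ZMod 2) : ZMod 2 := ∑ q, ∑ i, y q i * b q i

/-- the labels fill an affine space: every vector which has the values of the labels on the linear
forms in `DX` is a label -/
def Full (X : J → I → ZMod 2) : Prop :=
  ∀ a : I → ZMod 2, (∀ c ∈ DX X, ∀ p, ∑ i, c i * (a i + X p i) = 0) → ∃ k, X k = a

/-- the symmetric matrices with zero diagonal -/
noncomputable def Al (I : Type) [Fintype I] : Finset (I → I → ZMod 2) :=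
  univ.filter fun A => (∀ i j, A i j = A j i) ∧ ∀ i, A i i = 0

end labels

/-- FOUR: the number of the `σ` for which given vectors are solutions. -/
def S_FOUR : Prop := ∀ (t : ℕ) (K : Fin t → ℕ) (U : Fin t → Type) [∀ l, Fintype (U l)] (J : Type)
  [Fintype J] [LinearOrder J] (N : ∀ l, U l ⊕ J → U l ⊕ J → ZMod 2) (ξ : Tu K U J),
  ((univ.filter fun σ : ps J → ZMod 2 => SolT N σ ξ).card : ℝ) *
      2 ^ (Fintype.card J * Fintype.card (Ix K)) =
    2 ^ (ps J).card * (if Sml N ξ then ∑ y ∈ RX (Xf ξ), sr (pr y (tg N ξ)) else 0)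

/-- ORT: if the target is not orthogonal to the relations, the sum is zero. -/
def S_ORT : Prop := ∀ (J I : Type) [Fintype J] [Fintype I] (X b : J → I → ZMod 2),
  0 ≤ ∑ y ∈ RX X, sr (pr y b) ∧ ∑ y ∈ RX X, sr (pr y b) ≤ (RX X).card ∧
    ((∃ y ∈ RX X, pr y b ≠ 0) → ∑ y ∈ RX X, sr (pr y b) = 0)

/-- RBD: the number of the relations. -/
def S_RBD : Prop := ∀ (J I : Type) [Fintype J] [Fintype I] [Nonempty J] (X : J → I → ZMod 2),
  (RX X).card ≤ 2 ^ (Fintype.card I * (Fintype.card I + 1)) * (DX X).card ^ Fintype.card J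

/-- CNA: the number of the labels with given `DX` which do not fill the affine space. -/
def S_CNA : Prop := ∀ (J I : Type) [Fintype J] [Fintype I] [Nonempty J] (D : Finset (I → ZMod 2)),
  ((univ.filter fun X : J → I → ZMod 2 => DX X = D ∧ ¬ Full X).card : ℝ) *
      (D.card : ℝ) ^ Fintype.card J ≤
    4 ^ Fintype.card I * (2 ^ Fintype.card I) ^ Fintype.card J *
      (1 - (1 / 2 : ℝ) ^ Fintype.card I) ^ Fintype.card J

/-- PAR: the relations if all labels occur. -/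
def S_PAR : Prop := ∀ (J I : Type) [Fintype J] [Fintype I] (X : J → I → ZMod 2),
  Function.Surjective X → ∀ f : (J → I → ZMod 2) → ℝ,
    ∑ y ∈ RX X, f y = ∑ A ∈ Al I, ∑ c : I → ZMod 2, f fun q i => ∑ j, A i j * X q j + c i

/-- ROW: the relation of the rows. -/
def S_ROW : Prop := ∀ (t n : ℕ) (K : Fin t → ℕ) (U : Fin t → Type) [∀ l, Fintype (U l)] (J : Type)
  [Fintype J] (w : ∀ l, U l ⊕ J → ZMod 2) (uU : ∀ l, U l → ZMod 2) (uJ : J → ZMod 2)
  (N : ∀ l, U l ⊕ J → U l ⊕ J → ZMod 2) (NJ : J → J → ZMod 2)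
  (x : Fin t → Fin n → ZMod 2) (JR : Fin n → Finset J), Hl w uU uJ N NJ x JR →
  ∀ ξ : Tu K U J, Sml N ξ → ∀ i, ∑ q, tg N ξ q i = 0

/-- GRD: the linear forms in `DX` are not stable under the types, and the labels satisfy an
additional equation at the large indices of a type. -/
def S_GRD : Prop := ∀ (t n : ℕ) (K : Fin t → ℕ) (U : Fin t → Type) [∀ l, Fintype (U l)] (J : Type)
  [Fintype J] (w : ∀ l, U l ⊕ J → ZMod 2) (uU : ∀ l, U l → ZMod 2) (uJ : J → ZMod 2)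
  (N : ∀ l, U l ⊕ J → U l ⊕ J → ZMod 2) (NJ : J → J → ZMod 2)
  (x : Fin t → Fin n → ZMod 2) (JR : Fin n → Finset J), Hl w uU uJ N NJ x JR → Nonempty J →
  ∀ ξ : Tu K U J, IndT ξ → (∃ c ∈ DX (Xf ξ), c ≠ 0) → (∀ y ∈ RX (Xf ξ), pr y (tg N ξ) = 0) →
  ∃ r, ∃ c ∈ DX (Xf ξ), ∃ e : ZMod 2, (fun i : Ix K => x i.1 r * c i) ∉ DX (Xf ξ) ∧
    (∀ q, ∑ i, c i * Xf ξ q i = e) ∧
    ∀ l₀, ∀ q ∈ JR r, ∑ i : Ix K, x i.1 r * c i * Xf ξ q i =
      e * (de N l₀ q + x l₀ r) +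
        ∑ i : Ix K, c i * ∑ v, ξ i.1 i.2 (Sum.inl v) * N i.1 (Sum.inr q) (Sum.inl v)

/-- NSB: the tuples for which the labels fill a proper affine subspace. -/
def S_NSB : Prop := ∀ (t n : ℕ) (K : Fin t → ℕ) (ε : ℝ), 0 < ε → ∃ C₀ : ℕ, ∀ (U : Fin t → Type)
  [∀ l, Fintype (U l)] (J : Type) [Fintype J] [LinearOrder J]
  (w : ∀ l, U l ⊕ J → ZMod 2) (uU : ∀ l, U l → ZMod 2) (uJ : J → ZMod 2)
  (N : ∀ l, U l ⊕ J → U l ⊕ J → ZMod 2) (NJ : J → J → ZMod 2)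
  (x : Fin t → Fin n → ZMod 2) (JR : Fin n → Finset J), Hl w uU uJ N NJ x JR →
  C₀ * sz U ≤ (univ.filter fun k => uJ k = 1).card → (∀ r, C₀ * sz U ≤ (JR r).card) →
  ∑ ξ ∈ univ.filter (fun ξ : Tu K U J => IndT ξ ∧ Full (Xf ξ) ∧ (∃ c ∈ DX (Xf ξ), c ≠ 0) ∧
      ∀ y ∈ RX (Xf ξ), pr y (tg N ξ) = 0), ((RX (Xf ξ)).card : ℝ) ≤
    ε * 2 ^ (Fintype.card J * Fintype.card (Ix K))

/-- NSA: the tuples for which the labels do not fill an affine space. -/
def S_NSA : Prop := ∀ (t : ℕ) (K : Fin t → ℕ) (ε : ℝ), 0 < ε → ∃ C₀ : ℕ, ∀ (U : Fin t → Type)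
  [∀ l, Fintype (U l)] (J : Type) [Fintype J], C₀ * sz U ≤ Fintype.card J →
  ∑ ξ ∈ univ.filter (fun ξ : Tu K U J => ¬ Full (Xf ξ)), ((RX (Xf ξ)).card : ℝ) ≤
    ε * 2 ^ (Fintype.card J * Fintype.card (Ix K))

/-- the character of a tuple: `A` is a symmetric matrix, `b` are multipliers of the equations at
the small indices -/
noncomputable def ch {t : ℕ} {K : Fin t → ℕ} {U : Fin t → Type} [∀ l, Fintype (U l)] {J : Type}
    [Fintype J] (N : ∀ l, U l ⊕ J → U l ⊕ J → ZMod 2) (A : Ix K → Ix K → ZMod 2)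
    (b : ∀ l, Fin (K l) → U l → ZMod 2) (ξ : Tu K U J) : ZMod 2 :=
  pr (fun q i => ∑ j, A i j * Xf ξ q j) (tg N ξ) + ∑ l, ∑ i, ∑ v, b l i v * sq N ξ l i v

/-- CH0: the characters with `A = 0`. -/
def S_CH0 : Prop := ∀ (t n : ℕ) (K : Fin t → ℕ) (U : Fin t → Type) [∀ l, Fintype (U l)] (J : Type)
  [Fintype J] (w : ∀ l, U l ⊕ J → ZMod 2) (uU : ∀ l, U l → ZMod 2) (uJ : J → ZMod 2)
  (N : ∀ l, U l ⊕ J → U l ⊕ J → ZMod 2) (NJ : J → J → ZMod 2)
  (x : Fin t → Fin n → ZMod 2) (JR : Fin n → Finset J), Hl w uU uJ N NJ x JR →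
  ∀ b : ∀ l, Fin (K l) → U l → ZMod 2, b ≠ 0 → ∑ ξ : Tu K U J, sr (ch N 0 b ξ) = 0

/-- CH1: the characters with `A ≠ 0`. -/
def S_CH1 : Prop := ∀ (t n : ℕ) (K : Fin t → ℕ) (U : Fin t → Type) [∀ l, Fintype (U l)] (J : Type)
  [Fintype J] (w : ∀ l, U l ⊕ J → ZMod 2) (uU : ∀ l, U l → ZMod 2) (uJ : J → ZMod 2)
  (N : ∀ l, U l ⊕ J → U l ⊕ J → ZMod 2) (NJ : J → J → ZMod 2)
  (x : Fin t → Fin n → ZMod 2) (JR : Fin n → Finset J), Hl w uU uJ N NJ x JR →
  ∀ V : ℕ, V ≤ (univ.filter fun k => uJ k = 1).card → (∀ r, V ≤ (JR r).card) →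
  ∀ A ∈ Al (Ix K), A ≠ 0 → ∀ b : ∀ l, Fin (K l) → U l → ZMod 2,
    |∑ ξ : Tu K U J, sr (ch N A b ξ)| ≤ 2 * (1 / 2 : ℝ) ^ V * Fintype.card (Tu K U J)

/-- the coefficient of `ξ i.1 i.2 (Sum.inr k)` in the character -/
noncomputable def kap {t : ℕ} {K : Fin t → ℕ} {U : Fin t → Type} [∀ l, Fintype (U l)] {J : Type}
    [Fintype J] (uJ : J → ZMod 2) (N : ∀ l, U l ⊕ J → U l ⊕ J → ZMod 2) (A : Ix K → Ix K → ZMod 2)
    (b : ∀ l, Fin (K l) → U l → ZMod 2) (ξ : Tu K U J) (i : Ix K) (k : J) : ZMod 2 :=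
  uJ k * (∑ j, A i j * ∑ q, uJ q * Xf ξ q j) +
    ∑ j : Ix K, A i j * ((uJ k + de N i.1 k + de N j.1 k) * Xf ξ k j +
      ∑ v, ξ j.1 j.2 (Sum.inl v) * N j.1 (Sum.inr k) (Sum.inl v)) +
    ∑ v, b i.1 i.2 v * N i.1 (Sum.inl v) (Sum.inr k)

/-- CHA: the sum over one vector. -/
def S_CHA : Prop := ∀ (t n : ℕ) (K : Fin t → ℕ) (U : Fin t → Type) [∀ l, Fintype (U l)] (J : Type)
  [Fintype J] (w : ∀ l, U l ⊕ J → ZMod 2) (uU : ∀ l, U l → ZMod 2) (uJ : J → ZMod 2)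
  (N : ∀ l, U l ⊕ J → U l ⊕ J → ZMod 2) (NJ : J → J → ZMod 2)
  (x : Fin t → Fin n → ZMod 2) (JR : Fin n → Finset J), Hl w uU uJ N NJ x JR →
  ∀ A ∈ Al (Ix K), ∀ (b : ∀ l, Fin (K l) → U l → ZMod 2) (i : Ix K),
    |∑ ξ : Tu K U J, sr (ch N A b ξ)| ≤
      ((univ.filter fun ξ : Tu K U J => ∀ k, kap uJ N A b ξ i k = 0).card : ℝ)

/-- CHB: the number of the tuples with vanishing coefficients. -/
def S_CHB : Prop := ∀ (t n : ℕ) (K : Fin t → ℕ) (U : Fin t → Type) [∀ l, Fintype (U l)] (J : Type)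
  [Fintype J] (w : ∀ l, U l ⊕ J → ZMod 2) (uU : ∀ l, U l → ZMod 2) (uJ : J → ZMod 2)
  (N : ∀ l, U l ⊕ J → U l ⊕ J → ZMod 2) (NJ : J → J → ZMod 2)
  (x : Fin t → Fin n → ZMod 2) (JR : Fin n → Finset J), Hl w uU uJ N NJ x JR →
  ∀ V : ℕ, V ≤ (univ.filter fun k => uJ k = 1).card → (∀ r, V ≤ (JR r).card) →
  ∀ A ∈ Al (Ix K), ∀ (b : ∀ l, Fin (K l) → U l → ZMod 2) (i j : Ix K), A i j ≠ 0 →
    ((univ.filter fun ξ : Tu K U J => ∀ k, kap uJ N A b ξ i k = 0).card : ℝ) ≤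
      2 * (1 / 2 : ℝ) ^ V * Fintype.card (Tu K U J)

/-- MNC: the main term. -/
def S_MNC : Prop := ∀ (t n : ℕ) (K : Fin t → ℕ) (ε : ℝ), 0 < ε → ∃ C₀ : ℕ, ∀ (U : Fin t → Type)
  [∀ l, Fintype (U l)] (J : Type) [Fintype J] [LinearOrder J]
  (w : ∀ l, U l ⊕ J → ZMod 2) (uU : ∀ l, U l → ZMod 2) (uJ : J → ZMod 2)
  (N : ∀ l, U l ⊕ J → U l ⊕ J → ZMod 2) (NJ : J → J → ZMod 2)
  (x : Fin t → Fin n → ZMod 2) (JR : Fin n → Finset J), Hl w uU uJ N NJ x JR →
  C₀ * sz U ≤ (univ.filter fun k => uJ k = 1).card → (∀ r, C₀ * sz U ≤ (JR r).card) →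
  |∑ ξ ∈ univ.filter (fun ξ : Tu K U J => Function.Surjective (Xf ξ) ∧ Sml N ξ),
      ∑ y ∈ RX (Xf ξ), sr (pr y (tg N ξ)) -
    2 ^ (∑ l, K l) * 2 ^ (Fintype.card J * Fintype.card (Ix K))| ≤
    ε * 2 ^ (Fintype.card J * Fintype.card (Ix K))

/-- MOA: the assembly of the moments. -/
def S_MOA : Prop := S_FOUR → S_ORT → S_NSA → S_NSB → S_MNC → S_MOM

end Pool.Agent.L0h1.SJ
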